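import Mathlib

namespace Pool.Agent.MPcfac02

open Cardinal Set

universe u

theorem exists_surj_of_mk_le {α β : Type u} (h : #α ≤ #β) [Nonempty α] :
    ∃ g : β → α, Function.Surjective g := by
  obtain ⟨f⟩ := h
  exact ⟨Function.invFun f, Function.invFun_surjective f.injective⟩

theorem exists_type (c : Cardinal.{u}) : ∃ C : Type u, #C = c := ⟨c.out, mk_out c⟩

section Closure

variable {α : Type u} (M0 : Set α) (C L : Type u) (e : Set α → C → α)

/-- Arity function of the term algebra. -/
def arity : (M0 ⊕ (C × Bool)) → Type u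
  | Sum.inl _ => PEmpty
  | Sum.inr (_, true) => L
  | Sum.inr (_, false) => PEmpty

/-- Evaluation step. -/
def evalStep : (Σ a : M0 ⊕ (C × Bool), arity M0 C L a → α) → α
  | ⟨Sum.inl m, _⟩ => m
  | ⟨Sum.inr (j, true), f⟩ => e (range f) j
  | ⟨Sum.inr (j, false), _⟩ => e ∅ j

/-- Evaluation of a term. -/
def evalW : WType (arity M0 C L) → α :=
  WType.elim α (evalStep M0 C L e)

end Closure

/-- A closure lemma: a set of size at most `c = c ^ l` can be enlarged, keeping this bound, to be
closed under a set-valued operation on subsets of size at most `l`. -/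
theorem exists_closed {α : Type u} (c l : Cardinal.{u}) (hc : ℵ₀ ≤ c) (hcl : c ^ l ≤ c)
    (M0 : Set α) (h0 : #M0 ≤ c) (F : Set α → Set α) (hF : ∀ A : Set α, #A ≤ l → #(F A) ≤ c) :
    ∃ M : Set α, M0 ⊆ M ∧ #M ≤ c ∧ ∀ A ⊆ M, #A ≤ l → F A ⊆ M := by
  classical
  rcases isEmpty_or_nonempty α with hα | hα
  · exact ⟨M0, le_rfl, h0, fun A _ _ x => (hα.false x).elim⟩
  obtain ⟨C, rfl⟩ := exists_type c
  obtain ⟨L, rfl⟩ := exists_type l
  -- enumerations
  have hC : ∀ A : Set α, ∃ e : C → α, #A ≤ #L → F A ⊆ range e := by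
    intro A
    by_cases hA : #A ≤ #L
    · by_cases hne : (F A).Nonempty
      · have h1 : #(F A) ≤ #C := hF A hA
        have : Nonempty (F A) := hne.to_subtype
        obtain ⟨g, hg⟩ := exists_surj_of_mk_le h1
        refine ⟨fun j => (g j : α), fun _ x hx => ?_⟩
        obtain ⟨j, hj⟩ := hg ⟨x, hx⟩
        exact ⟨j, by simp [hj]⟩
      · refine ⟨fun _ => Classical.arbitrary α, fun _ => ?_⟩
        rw [Set.not_nonempty_iff_eq_empty.1 hne]
        exact empty_subset _
    · exact ⟨fun _ => Classical.arbitrary α, fun h => absurd h hA⟩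
  choose e he using hC
  refine ⟨range (evalW M0 C L e), ?_, ?_, ?_⟩
  · intro x hx
    refine ⟨WType.mk (Sum.inl ⟨x, hx⟩) PEmpty.elim, ?_⟩
    simp [evalW, WType.elim, evalStep]
  · refine mk_range_le.trans ?_
    refine WType.cardinalMk_le_of_le ?_
    refine (Cardinal.sum_le_sum _ (fun _ => #C) ?_).trans ?_
    · rintro (m | ⟨j, b⟩)
      · simp only [arity]
        rw [mk_pempty, power_zero]
        exact (one_lt_aleph0.le).trans hc
      · cases b
        · simp only [arity]
          rw [mk_pempty, power_zero]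
          exact (one_lt_aleph0.le).trans hc
        · simp only [arity]
          exact hcl
    · rw [sum_const', mk_sum, mk_prod, lift_id, lift_id, Cardinal.lift_uzero]
      have hb : Cardinal.lift.{u} #Bool ≤ #C := by
        have : #Bool = 2 := by simp
        rw [this]
        simp only [lift_ofNat]
        exact (Cardinal.ofNat_lt_aleph0 (n := 2)).le.trans hc
      calc (#M0 + #C * Cardinal.lift.{u} #Bool) * #C ≤ (#C + #C * #C) * #C := by gcongr
        _ = #C := by rw [mul_eq_self hc, add_eq_self hc, mul_eq_self hc]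
  · intro A hAM hAl x hx
    obtain ⟨j, hj⟩ := he A hAl hx
    by_cases hne : A.Nonempty
    · have : Nonempty A := hne.to_subtype
      obtain ⟨g, hg⟩ := exists_surj_of_mk_le (α := A) (β := L) hAl
      choose t ht using fun a : A => hAM a.2
      refine ⟨WType.mk (Sum.inr (j, true)) (fun i => t (g i)), ?_⟩
      have hr : range (fun i => evalW M0 C L e (t (g i))) = A := by
        ext y
        constructor
        · rintro ⟨i, rfl⟩
          simp only []
          rw [ht]
          exact (g i).2
        · intro hy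
          obtain ⟨i, hi⟩ := hg ⟨y, hy⟩
          refine ⟨i, ?_⟩
          simp only []
          rw [hi, ht]
      have h1 : evalW M0 C L e (WType.mk (Sum.inr (j, true)) (fun i => t (g i))) =
          e (range (fun i => evalW M0 C L e (t (g i)))) j := rfl
      rw [h1, hr, hj]
    · have hA0 : A = ∅ := Set.not_nonempty_iff_eq_empty.1 hne
      refine ⟨WType.mk (Sum.inr (j, false)) PEmpty.elim, ?_⟩
      have h1 : evalW M0 C L e (WType.mk (Sum.inr (j, false)) PEmpty.elim) = e ∅ j := rfl
      rw [h1, ← hj, hA0]

end Pool.Agent.MPcfac02
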