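import Mathlib
import Pool.Agent.Lib.MP_cfac02_lc.Closure

namespace Pool.Agent.MPcfac02

open Cardinal Set

universe u

variable {P : Type u} [PartialOrder P]

/-- `X` is covered by at most `c` ideals of `P`. -/
def Cov (X : Set P) (c : Cardinal.{u}) : Prop :=
  ∃ 𝓘 : Set (Set P), #𝓘 ≤ c ∧ (∀ I ∈ 𝓘, Order.IsIdeal I) ∧ X ⊆ ⋃₀ 𝓘

/-- Downward closure. -/
def dn (X : Set P) : Set P := {p | ∃ r ∈ X, p ≤ r}

theorem subset_dn (X : Set P) : X ⊆ dn X := fun x hx => ⟨x, hx, le_rfl⟩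

theorem dn_mono {X Y : Set P} (h : X ⊆ Y) : dn X ⊆ dn Y := fun _ ⟨r, hr, hx⟩ => ⟨r, h hr, hx⟩

theorem Cov.mono {X Y : Set P} {c d : Cardinal.{u}} (h : Cov Y d) (hXY : X ⊆ Y) (hcd : d ≤ c) :
    Cov X c := by
  obtain ⟨𝓘, h1, h2, h3⟩ := h
  exact ⟨𝓘, h1.trans hcd, h2, hXY.trans h3⟩

theorem Cov.iUnion {ι : Type u} {X : ι → Set P} {c : Cardinal.{u}} (h : ∀ i, Cov (X i) c) :
    Cov (⋃ i, X i) (#ι * c) := by
  choose 𝓘 h1 h2 h3 using h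
  refine ⟨⋃ i, 𝓘 i, ?_, ?_, ?_⟩
  · refine (mk_iUnion_le_sum_mk).trans ?_
    refine (Cardinal.sum_le_sum _ (fun _ => c) h1).trans ?_
    simp
  · intro I hI
    obtain ⟨i, hi⟩ := mem_iUnion.1 hI
    exact h2 i I hi
  · intro x hx
    obtain ⟨i, hi⟩ := mem_iUnion.1 hx
    obtain ⟨I, hI, hxI⟩ := h3 i hi
    exact ⟨I, mem_iUnion.2 ⟨i, hI⟩, hxI⟩

theorem Cov.union {X Y : Set P} {c d : Cardinal.{u}} (hX : Cov X c) (hY : Cov Y d) :
    Cov (X ∪ Y) (c + d) := by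
  obtain ⟨𝓘, h1, h2, h3⟩ := hX
  obtain ⟨𝓙, k1, k2, k3⟩ := hY
  refine ⟨𝓘 ∪ 𝓙, ?_, ?_, ?_⟩
  · exact (mk_union_le _ _).trans (add_le_add h1 k1)
  · rintro I (hI | hI)
    · exact h2 I hI
    · exact k2 I hI
  · rw [sUnion_union]
    exact union_subset_union h3 k3

theorem cov_empty (c : Cardinal.{u}) : Cov (∅ : Set P) c :=
  ⟨∅, by simp, by simp, by simp⟩

theorem cov_of_directed {X : Set P} (h : DirectedOn (· ≤ ·) X) : Cov X 1 := by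
  rcases X.eq_empty_or_nonempty with rfl | hne
  · exact cov_empty 1
  refine ⟨{dn X}, by simp, ?_, ?_⟩
  · rintro I rfl
    refine ⟨?_, ?_, ?_⟩
    · rintro a b hba ⟨r, hr, har⟩
      exact ⟨r, hr, hba.trans har⟩
    · exact hne.mono (subset_dn X)
    · rintro a ⟨r, hr, har⟩ b ⟨s, hs, hbs⟩
      obtain ⟨t, ht, hrt, hst⟩ := h r hr s hs
      exact ⟨t, subset_dn X ht, har.trans hrt, hbs.trans hst⟩
  · rw [sUnion_singleton]
    exact subset_dn X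

theorem cov_dn (R : Set P) : Cov (dn R) (#R) := by
  have h1 : dn R = ⋃ r : R, dn {(r : P)} := by
    ext x
    simp [dn]
  have h2 : ∀ r : R, Cov (dn {(r : P)}) 1 := by
    intro r
    refine cov_of_directed ?_
    rintro a ⟨_, rfl, ha⟩ b ⟨_, rfl, hb⟩
    exact ⟨r, subset_dn _ rfl, ha, hb⟩
  have h3 := Cov.iUnion h2
  rw [← h1, mul_one] at h3
  exact h3

theorem exists_max_pairwise {α : Type u} (r : α → α → Prop) (N : Set α) :
    ∃ A ⊆ N, A.Pairwise r ∧ ∀ x ∈ N, x ∉ A → ∃ a ∈ A, ¬ (r x a ∧ r a x) := by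
  obtain ⟨A, hA⟩ := zorn_subset {A : Set α | A ⊆ N ∧ A.Pairwise r} (by
    intro c hc hchain
    refine ⟨⋃₀ c, ⟨?_, ?_⟩, fun s hs => subset_sUnion_of_mem hs⟩
    · exact sUnion_subset fun s hs => (hc hs).1
    · exact (pairwise_sUnion hchain.directedOn).2 fun s hs => (hc hs).2)
  refine ⟨A, hA.1.1, hA.1.2, fun x hx hxA => ?_⟩
  by_contra hcon
  push Not at hcon
  have h1 : insert x A ∈ {A : Set α | A ⊆ N ∧ A.Pairwise r} := by
    refine ⟨insert_subset hx hA.1.1, ?_⟩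
    refine hA.1.2.insert ?_
    intro b hb _
    exact hcon b hb
  exact hxA (hA.2 h1 (subset_insert x A) (mem_insert x A))

/-- Milner and Prikry: a set all of whose antichains have size at most `l` is covered by at most
`2 ^ l` ideals. -/
theorem cov_of_antichains {X : Set P} {l : Cardinal.{u}} (hl : ℵ₀ ≤ l)
    (h : ∀ A ⊆ X, IsAntichain (· ≤ ·) A → #A ≤ l) : Cov X (2 ^ l) := by
  classical
  have hl2 : ℵ₀ ≤ (2 : Cardinal.{u}) ^ l := hl.trans (cantor l).le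
  have hpow : ((2 : Cardinal.{u}) ^ l) ^ l ≤ 2 ^ l := by
    rw [← power_mul, mul_eq_self hl]
  -- elements of `X` incomparable to all elements of `A`
  set Q : Set P → Set P := fun A => {y | y ∈ X ∧ ∀ a ∈ A, ¬ a ≤ y ∧ ¬ y ≤ a} with hQ
  have hF : ∀ A : Set P, ∃ S : Set P, #S ≤ 2 ^ l ∧ (¬ DirectedOn (· ≤ ·) (Q A) →
      ∃ y1 ∈ S, ∃ y2 ∈ S, y1 ∈ Q A ∧ y2 ∈ Q A ∧ ∀ z ∈ Q A, ¬ (y1 ≤ z ∧ y2 ≤ z)) := by
    intro A
    by_cases hd : DirectedOn (· ≤ ·) (Q A)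
    · exact ⟨∅, by simp, fun h => absurd hd h⟩
    · have hd' := hd
      unfold DirectedOn at hd'
      push Not at hd'
      obtain ⟨y1, hy1, y2, hy2, hz⟩ := hd'
      refine ⟨{y1, y2}, ?_, fun _ => ⟨y1, by simp, y2, by simp, hy1, hy2, ?_⟩⟩
      · have hfin : ({y1, y2} : Set P).Finite := by simp
        have h1 := hfin.lt_aleph0
        exact h1.le.trans hl2
      · intro z hz' hzz
        exact hz z hz' hzz.1 hzz.2
  choose F hF1 hF2 using hF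
  obtain ⟨M, -, hM1, hM2⟩ := exists_closed (2 ^ l) l hl2 hpow (∅ : Set P) (by simp)
    (fun A => F A) (fun A _ => hF1 A)
  -- main claim
  have key : ∀ p ∈ X, p ∉ dn (M ∩ X) → ∃ A ⊆ M ∩ X, #A ≤ l ∧ DirectedOn (· ≤ ·) (Q A) ∧ p ∈ Q A := by
    intro p hp hpM
    obtain ⟨A, hAN, hA1, hA2⟩ := exists_max_pairwise (fun a b : P => ¬ a ≤ b)
      {m | m ∈ M ∩ X ∧ ¬ m ≤ p ∧ ¬ p ≤ m}
    have hAX : A ⊆ X := fun a ha => (hAN ha).1.2
    have hAM : A ⊆ M := fun a ha => (hAN ha).1.1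
    have hAanti : IsAntichain (· ≤ ·) A := hA1
    have hAl : #A ≤ l := h A hAX hAanti
    have hpQ : p ∈ Q A := ⟨hp, fun a ha => (hAN ha).2⟩
    refine ⟨A, fun a ha => (hAN ha).1, hAl, ?_, hpQ⟩
    by_contra hd
    obtain ⟨y1, hy1, y2, hy2, hyQ1, hyQ2, hz⟩ := hF2 A hd
    have hle : ∀ y ∈ F A, y ∈ Q A → y ≤ p := by
      intro y hy hyQ
      have hyM : y ∈ M := hM2 A hAM hAl hy
      by_contra hyp
      have hpy : ¬ p ≤ y := fun hpy => hpM ⟨y, ⟨hyM, hyQ.1⟩, hpy⟩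
      by_cases hyA : y ∈ A
      · exact (hyQ.2 y hyA).1 le_rfl
      · obtain ⟨a, ha, hna⟩ := hA2 y ⟨⟨hyM, hyQ.1⟩, hyp, hpy⟩ hyA
        exact hna ⟨(hyQ.2 a ha).2, (hyQ.2 a ha).1⟩
    exact hz p hpQ ⟨hle y1 hy1 hyQ1, hle y2 hy2 hyQ2⟩
  -- counting
  have hcount : #{A : Set P // A ⊆ M ∩ X ∧ #A ≤ l} ≤ 2 ^ l := by
    refine (mk_bounded_subset_le (M ∩ X) l).trans ?_
    have h1 : max #(M ∩ X : Set P) ℵ₀ ≤ 2 ^ l :=
      max_le ((mk_le_mk_of_subset inter_subset_left).trans hM1) hl2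
    exact (power_le_power_right h1).trans hpow
  have hcov1 : Cov (dn (M ∩ X)) (2 ^ l) :=
    (cov_dn _).mono le_rfl ((mk_le_mk_of_subset inter_subset_left).trans hM1)
  have hcov2 : Cov (⋃ A : {A : Set P // A ⊆ M ∩ X ∧ #A ≤ l},
      {q | q ∈ Q A.1 ∧ DirectedOn (· ≤ ·) (Q A.1)}) (2 ^ l) := by
    refine (Cov.iUnion (c := 1) ?_).mono le_rfl (by rw [mul_one]; exact hcount)
    intro A
    refine cov_of_directed ?_
    rintro a ⟨ha, hd⟩ b ⟨hb, _⟩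
    obtain ⟨z, hz, h1, h2⟩ := hd a ha b hb
    exact ⟨z, ⟨hz, hd⟩, h1, h2⟩
  refine (hcov1.union hcov2).mono ?_ ?_
  · intro p hp
    by_cases hpM : p ∈ dn (M ∩ X)
    · exact Or.inl hpM
    · obtain ⟨A, hA1, hA2, hA3, hA4⟩ := key p hp hpM
      exact Or.inr (mem_iUnion.2 ⟨⟨A, hA1, hA2⟩, hA4, hA3⟩)
  · rw [add_eq_self hl2]

end Pool.Agent.MPcfac02
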