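import Mathlib
import Pool.Agent.Lib.MP_cfac02_lc.Cov

namespace Pool.Agent.MPcfac02

open Cardinal Set Order

universe u

/-- Recursive choice along a well-order. -/
theorem exists_rec {I : Type u} {α : Type*} [LinearOrder I] [WellFoundedLT I] [Nonempty α]
    (R : I → Set α → α → Prop)
    (h : ∀ i (f : I → α), (∀ j < i, R j (f '' Iio j) (f j)) → ∃ a, R i (f '' Iio i) a) :
    ∃ f : I → α, ∀ i, R i (f '' Iio i) (f i) := by
  classical
  have hwf : WellFounded ((· < ·) : I → I → Prop) := wellFounded_lt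
  let F : ∀ i : I, (∀ j : I, j < i → α) → α := fun i g =>
    if hh : ∃ a, R i {b | ∃ j, ∃ hj : j < i, g j hj = b} a then Classical.choose hh
    else Classical.arbitrary α
  refine ⟨hwf.fix F, fun i => ?_⟩
  induction i using hwf.induction with
  | _ i ih =>
    obtain ⟨a, ha⟩ := h i (hwf.fix F) (fun j hj => ih j hj)
    have hset : {b | ∃ j, ∃ _ : j < i, hwf.fix F j = b} = hwf.fix F '' Iio i := by
      ext b
      constructor
      · rintro ⟨j, hj, rfl⟩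
        exact ⟨j, hj, rfl⟩
      · rintro ⟨j, hj, rfl⟩
        exact ⟨j, hj, rfl⟩
    have hex : ∃ a, R i {b | ∃ j, ∃ _ : j < i, hwf.fix F j = b} a := ⟨a, by rw [hset]; exact ha⟩
    have hfix : hwf.fix F i = Classical.choose hex := by
      rw [hwf.fix_eq F i]
      exact dif_pos hex
    have := Classical.choose_spec hex
    rw [← hfix, hset] at this
    exact this

/-- A subset of size `< κ` of the initial ordinal of a regular cardinal is bounded. -/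
theorem exists_ub {κ : Cardinal.{u}} (hκ : κ.IsRegular) (T : Set κ.ord.ToType) (hT : #T < κ) :
    ∃ i, ∀ t ∈ T, t < i := by
  by_contra hcon
  push Not at hcon
  have h1 : IsCofinal T := fun x => hcon x
  have h2 := Order.cof_le h1
  rw [Ordinal.cof_toType, hκ.cof_ord] at h2
  exact absurd hT (not_lt.2 h2)

theorem mk_Iio_ord_lt {κ : Cardinal.{u}} (i : κ.ord.ToType) : #(Iio i) < κ := by
  have h := mk_Iio_lt i (by simp)
  simpa using h

section Mu

variable {μ : Cardinal.{u}}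

theorem regular_cof (hμ : μ.IsStrongLimit) : μ.ord.cof.IsRegular :=
  isRegular_cof (isSuccLimit_ord hμ.aleph0_le)

theorem aleph0_lt (hμ : μ.IsStrongLimit) (hs : μ.ord.cof < μ) : ℵ₀ < μ :=
  (regular_cof hμ).aleph0_le.trans_lt hs

theorem mk_Iio_mk_ord (μ c : Cardinal.{u}) (hc' : c.ord < μ.ord) :
    #(Iio (Ordinal.ToType.mk ⟨c.ord, hc'⟩ : μ.ord.ToType)) = c := by
  have h1 : Ordinal.typein (α := μ.ord.ToType) (· < ·) (Ordinal.ToType.mk ⟨c.ord, hc'⟩) =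
      c.ord := by
    have := Ordinal.ToType.mk.symm_apply_apply (⟨c.ord, hc'⟩ : Iio μ.ord)
    exact congrArg Subtype.val this
  have h2 := congrArg Ordinal.card h1
  rw [card_ord] at h2
  refine Eq.trans ?_ h2
  rw [Ordinal.card_typein]
  rfl

/-- A cofinal sequence of length `cof μ`. -/
theorem exists_cofinal_seq (μ : Cardinal.{u}) :
    ∃ lam : μ.ord.cof.ord.ToType → Cardinal.{u}, (∀ i, lam i < μ) ∧ ∀ c < μ, ∃ i, c ≤ lam i := by
  obtain ⟨S, hS1, hS2⟩ := Order.exists_cof_eq (α := μ.ord.ToType)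
  rw [Ordinal.cof_toType] at hS2
  have h1 : #μ.ord.cof.ord.ToType = #S := by rw [mk_toType, card_ord, hS2]
  obtain ⟨e⟩ := Cardinal.eq.1 h1
  refine ⟨fun i => #(Iio ((e i : μ.ord.ToType))), fun i => mk_Iio_ord_lt _, fun c hc => ?_⟩
  have hc' : c.ord < μ.ord := ord_lt_ord.2 hc
  set x : μ.ord.ToType := Ordinal.ToType.mk ⟨c.ord, hc'⟩ with hx
  obtain ⟨s, hs, hxs⟩ := hS1 x
  refine ⟨e.symm ⟨s, hs⟩, ?_⟩
  simp only [Equiv.apply_symm_apply]
  have h2 : #(Iio x) = c := mk_Iio_mk_ord μ c hc'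
  rw [← h2]
  exact mk_le_mk_of_subset (Iio_subset_Iio hxs)

end Mu

section

variable {P : Type u} [PartialOrder P] {μ : Cardinal.{u}}

/-- `X` is covered by fewer than `μ` ideals. -/
def Sm (μ : Cardinal.{u}) (X : Set P) : Prop := ∃ c < μ, Cov X c

theorem Sm.mono {X Y : Set P} (h : Sm μ Y) (hXY : X ⊆ Y) : Sm μ X := by
  obtain ⟨c, hc, h⟩ := h
  exact ⟨c, hc, h.mono hXY le_rfl⟩

theorem Sm.union (hμ : μ.IsStrongLimit) {X Y : Set P} (hX : Sm μ X) (hY : Sm μ Y) :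
    Sm μ (X ∪ Y) := by
  obtain ⟨c, hc, hX⟩ := hX
  obtain ⟨d, hd, hY⟩ := hY
  exact ⟨c + d, add_lt_of_lt hμ.aleph0_le hc hd, hX.union hY⟩

theorem Sm.iUnion (hμ : μ.IsStrongLimit) {ι : Type u} {X : ι → Set P} (hι : #ι < μ.ord.cof)
    (h : ∀ i, Sm μ (X i)) : Sm μ (⋃ i, X i) := by
  choose c hc h using h
  have h1 : ⨆ i, c i < μ := iSup_lt_of_lt_cof_ord hι hc
  refine ⟨#ι * ⨆ i, c i, ?_, Cov.iUnion fun i => (h i).mono le_rfl ?_⟩
  · exact mul_lt_of_lt hμ.aleph0_le (hι.trans_le (Ordinal.cof_ord_le μ)) h1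
  · exact le_ciSup (bddAbove_of_small) i

theorem sm_dn {R : Set P} (h : #R < μ) : Sm μ (dn R) := ⟨_, h, cov_dn R⟩

theorem sm_of_directed (hμ : μ.IsStrongLimit) {X : Set P} (h : DirectedOn (· ≤ ·) X) :
    Sm μ X := ⟨1, one_lt_aleph0.trans_le hμ.aleph0_le, cov_of_directed h⟩

theorem Sm.of_diff (hμ : μ.IsStrongLimit) {X Y : Set P} (h1 : Sm μ (X \ Y))
    (h2 : Sm μ Y) : Sm μ X :=
  (h1.union hμ h2).mono (fun x hx => by
    by_cases hy : x ∈ Y
    · exact Or.inr hy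
    · exact Or.inl ⟨hx, hy⟩)

/-- A large set contains large antichains. -/
theorem exists_antichain (hμ : μ.IsStrongLimit) (hs : μ.ord.cof < μ) {X : Set P}
    (hX : ¬ Sm μ X) {l : Cardinal.{u}}
    (hl : l < μ) : ∃ A ⊆ X, IsAntichain (· ≤ ·) A ∧ l < #A := by
  by_contra hcon
  push Not at hcon
  refine hX ⟨2 ^ (max l ℵ₀), ?_, cov_of_antichains (le_max_right l ℵ₀) fun A hA hA' => ?_⟩
  · exact hμ.isStrongPrelimit (max_lt hl (aleph0_lt hμ hs))
  · exact (hcon A hA hA').trans (le_max_left _ _)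

/-- The main antichain construction: sets `W i` that are not covered by fewer than `μ` ideals and
with `W i ∩ ↓ W j = ∅` for `i < j` give an antichain of size at least `μ`. -/
theorem no_case_one (hμ : μ.IsStrongLimit) (hs : μ.ord.cof < μ)
    (hP : ∀ A : Set P, IsAntichain (· ≤ ·) A → #A < μ)
    (W : μ.ord.cof.ord.ToType → Set P) (hW : ∀ i, ¬ Sm μ (W i))
    (hd : ∀ i j, i < j → ∀ x ∈ W i, ∀ y ∈ W j, ¬ x ≤ y) : False := by
  obtain ⟨lam, hlam1, hlam2⟩ := exists_cofinal_seq μ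
  obtain ⟨Z, hZ⟩ := exists_rec (I := μ.ord.cof.ord.ToType) (α := Set P)
    (fun i T A => A ⊆ W i \ dn (⋃₀ T) ∧ IsAntichain (· ≤ ·) A ∧ lam i < #A) (by
      intro i f hf
      refine exists_antichain hμ hs ?_ (hlam1 i)
      intro hcon
      refine hW i (hcon.of_diff hμ (sm_dn ?_))
      rw [sUnion_image, biUnion_eq_iUnion]
      refine (mk_iUnion_le_sum_mk).trans_lt ?_
      refine (sum_le_mk_mul_iSup _).trans_lt ?_
      refine mul_lt_of_lt hμ.aleph0_le ((mk_Iio_ord_lt i).trans hs) ?_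
      refine iSup_lt_of_lt_cof_ord (mk_Iio_ord_lt i) ?_
      intro j
      exact hP _ (hf j.1 j.2).2.1)
  have hanti : IsAntichain (· ≤ ·) (⋃ i, Z i) := by
    intro x hx y hy hxy hle
    obtain ⟨i, hi⟩ := mem_iUnion.1 hx
    obtain ⟨j, hj⟩ := mem_iUnion.1 hy
    rcases lt_trichotomy i j with h | h | h
    · exact hd i j h x ((hZ i).1 hi).1 y ((hZ j).1 hj).1 hle
    · subst h
      exact (hZ i).2.1 hi hj hxy hle
    · refine ((hZ i).1 hi).2 ⟨y, ?_, hle⟩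
      exact ⟨Z j, ⟨j, h, rfl⟩, hj⟩
  have hlt := hP _ hanti
  obtain ⟨i, hi⟩ := hlam2 _ hlt
  have h2 : #(Z i) ≤ #(⋃ i, Z i : Set P) := mk_le_mk_of_subset (subset_iUnion Z i)
  exact absurd ((hZ i).2.2) (not_lt.2 (h2.trans hi))

theorem Cov.dn {Y : Set P} {c : Cardinal.{u}} (h : Cov Y c) : Cov (dn Y) c := by
  obtain ⟨𝓘, h1, h2, h3⟩ := h
  refine ⟨𝓘, h1, h2, ?_⟩
  rintro p ⟨y, hy, hpy⟩
  obtain ⟨I, hI, hyI⟩ := h3 hy
  exact ⟨I, hI, (h2 I hI).IsLowerSet hpy hyI⟩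

/-- The elements of `X` whose cone in `X` is small form a small set. -/
theorem sm_small_cones (hμ : μ.IsStrongLimit) (hs : μ.ord.cof < μ)
    (hP : ∀ A : Set P, IsAntichain (· ≤ ·) A → #A < μ) (X : Set P) :
    Sm μ {x | x ∈ X ∧ Sm μ (X ∩ Ici x)} := by
  classical
  obtain ⟨S, hSV, hS1, hS2⟩ := exists_max_pairwise (fun a b : P => ¬ ∃ z ∈ X, a ≤ z ∧ b ≤ z)
    {x | x ∈ X ∧ Sm μ (X ∩ Ici x)}
  have hSa : IsAntichain (· ≤ ·) S := by
    intro a ha b hb hab hle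
    exact hS1 ha hb hab ⟨b, (hSV hb).1, hle, le_rfl⟩
  have hSμ : #S < μ := hP S hSa
  have hVc : {x | x ∈ X ∧ Sm μ (X ∩ Ici x)} ⊆ ⋃ s : S, dn (X ∩ Ici (s : P)) := by
    intro v hv
    by_cases hvS : v ∈ S
    · exact mem_iUnion.2 ⟨⟨v, hvS⟩, v, ⟨hv.1, le_rfl⟩, le_rfl⟩
    · obtain ⟨s, hs, hn⟩ := hS2 v hv hvS
      have : ∃ z ∈ X, v ≤ z ∧ s ≤ z := by
        by_contra hc
        refine hn ⟨hc, ?_⟩
        rintro ⟨z, hz, h1, h2⟩
        exact hc ⟨z, hz, h2, h1⟩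
      obtain ⟨z, hz, h1, h2⟩ := this
      exact mem_iUnion.2 ⟨⟨s, hs⟩, z, ⟨hz, h2⟩, h1⟩
  obtain ⟨c, hc, hcS⟩ : ∃ c < μ, ∀ s ∈ S, Cov (X ∩ Ici s) c := by
    by_contra hcon
    push Not at hcon
    obtain ⟨lam, hlam1, hlam2⟩ := exists_cofinal_seq μ
    have hne : Nonempty P := by
      obtain ⟨s, -, -⟩ := hcon 0 ((Cardinal.zero_le _).trans_lt (aleph0_lt hμ hs))
      exact ⟨s⟩
    obtain ⟨f, hf⟩ := exists_rec (I := μ.ord.cof.ord.ToType) (α := P)
      (fun i T a => a ∈ S ∧ ¬ Cov (X ∩ Ici a) (2 ^ (max (lam i) ℵ₀)) ∧ a ∉ T) (by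
        intro i f hf
        have h1 : ∀ j : Iio i, ∃ c < μ, Cov (X ∩ Ici (f j)) c := fun j =>
          (hSV (hf j.1 j.2).1).2
        choose c hc1 hc2 using h1
        have h2 : ⨆ j, c j < μ := iSup_lt_of_lt_cof_ord (mk_Iio_ord_lt i) hc1
        have h3 : (2 : Cardinal.{u}) ^ (max (lam i) ℵ₀) < μ :=
          hμ.isStrongPrelimit (max_lt (hlam1 i) (aleph0_lt hμ hs))
        obtain ⟨s, hsS, hns⟩ := hcon _ (max_lt h2 h3)
        refine ⟨s, hsS, fun h => hns (h.mono le_rfl (le_max_right _ _)), ?_⟩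
        rintro ⟨j, hj, rfl⟩
        refine hns ((hc2 ⟨j, hj⟩).mono le_rfl (le_trans ?_ (le_max_left _ _)))
        exact le_ciSup (f := c) (bddAbove_of_small) ⟨j, hj⟩)
    have hZ : ∀ i, ∃ Z ⊆ X ∩ Ici (f i), IsAntichain (· ≤ ·) Z ∧ lam i < #Z := by
      intro i
      by_contra hc
      push Not at hc
      refine (hf i).2.1 (cov_of_antichains (le_max_right _ _) fun A hA hA' => ?_)
      exact (hc A hA hA').trans (le_max_left _ _)
    choose Z hZ1 hZ2 hZ3 using hZ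
    have hinj : ∀ i j, i ≠ j → f i ≠ f j := by
      intro i j hij heq
      rcases lt_or_gt_of_ne hij with h | h
      · exact (hf j).2.2 ⟨i, h, heq⟩
      · exact (hf i).2.2 ⟨j, h, heq.symm⟩
    have hanti : IsAntichain (· ≤ ·) (⋃ i, Z i) := by
      intro x hx y hy hxy hle
      obtain ⟨i, hi⟩ := mem_iUnion.1 hx
      obtain ⟨j, hj⟩ := mem_iUnion.1 hy
      by_cases hij : i = j
      · subst hij
        exact hZ2 i hi hj hxy hle
      · refine hS1 (hf i).1 (hf j).1 (hinj i j hij) ⟨y, (hZ1 j hj).1, ?_, (hZ1 j hj).2⟩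
        exact le_trans (hZ1 i hi).2 hle
    have hlt := hP _ hanti
    obtain ⟨i, hi⟩ := hlam2 _ hlt
    have h2 : #(Z i) ≤ #(⋃ i, Z i : Set P) := mk_le_mk_of_subset (subset_iUnion Z i)
    exact absurd (hZ3 i) (not_lt.2 (h2.trans hi))
  refine ⟨#S * c, mul_lt_of_lt hμ.aleph0_le hSμ hc, ?_⟩
  exact (Cov.iUnion fun s : S => (hcS s.1 s.2).dn).mono hVc le_rfl

end

end Pool.Agent.MPcfac02
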