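import Mathlib
import Pool.Agent.Lib.MP_cfac02_lc.Setup

namespace Pool.Agent.MPcfac02

open Cardinal Set Order

universe u

variable {P : Type u} [PartialOrder P] {μ : Cardinal.{u}}

/-- All antichains of `X` have size at most `l`. -/
def Aa (X : Set P) (l : Cardinal.{u}) : Prop := ∀ A ⊆ X, IsAntichain (· ≤ ·) A → #A ≤ l

theorem Aa.mono {X Y : Set P} {l m : Cardinal.{u}} (h : Aa Y l) (hXY : X ⊆ Y) (hlm : l ≤ m) :
    Aa X m := fun A hA hA' => (h A (hA.trans hXY) hA').trans hlm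

theorem Aa.iUnion {t : Cardinal.{u}} (ht : ℵ₀ ≤ t) {ι : Type u} {X : ι → Set P} (hι : #ι ≤ t)
    (h : ∀ i, Aa (X i) t) : Aa (⋃ i, X i) t := by
  intro A hAX hAa
  have h1 : A ⊆ ⋃ i, (A ∩ X i) := by
    intro x hx
    obtain ⟨i, hi⟩ := mem_iUnion.1 (hAX hx)
    exact mem_iUnion.2 ⟨i, hx, hi⟩
  refine (mk_le_mk_of_subset h1).trans ?_
  refine (mk_iUnion_le_sum_mk).trans ?_
  refine (Cardinal.sum_le_sum _ (fun _ => t) fun i =>
    h i _ inter_subset_right (hAa.subset inter_subset_left)).trans ?_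
  rw [sum_const']
  calc #ι * t ≤ t * t := by gcongr
    _ = t := mul_eq_self ht

/-- Elements of `Y` whose trace on `N` is given by `C`. -/
def Tr (C Y N : Set P) : Set P := {y | y ∈ Y ∧ ∀ x ∈ N, (x ≤ y ↔ x ∈ C)}

theorem tr_anti {C Y N N' : Set P} (h : N ⊆ N') : Tr C Y N' ⊆ Tr C Y N :=
  fun _ hy => ⟨hy.1, fun x hx => hy.2 x (h hx)⟩

/-- A type lemma: if `X` has only antichains of size at most `γ` and `Y` is not covered by
`2 ^ γ` ideals, then there is a subset `C` of `X` (the complement of the upper closure of a set of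
size at most `γ`) such that the trace of `Y` given by `C` is not small on any small set. -/
theorem exists_type_trace (hwf : WellFounded ((· < ·) : P → P → Prop)) {γ : Cardinal.{u}}
    (hγ : ℵ₀ ≤ γ) {X Y : Set P} (hX : Aa X γ) (hY : ¬ Cov Y (2 ^ γ)) :
    ∃ C : Set P, ∀ N ⊆ X, #N ≤ 2 ^ γ → ¬ Cov (Tr C Y N) (2 ^ γ) := by
  classical
  by_contra hcon
  push Not at hcon
  have h2 : ℵ₀ ≤ (2 : Cardinal.{u}) ^ γ := hγ.trans (cantor γ).le
  have hpow : ((2 : Cardinal.{u}) ^ γ) ^ γ ≤ 2 ^ γ := by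
    rw [← power_mul, mul_eq_self hγ]
  set CC : Set P → Set P := fun G => {x | ¬ ∃ g ∈ G, g ≤ x} with hCC
  choose NN hN1 hN2 hN3 using fun G : Set P => hcon (CC G)
  obtain ⟨M, -, hM1, hM2⟩ := exists_closed (2 ^ γ) γ h2 hpow (∅ : Set P) (by simp)
    NN (fun A _ => hN2 A)
  -- the counting
  have hcount : #{G : Set P // G ⊆ M ∩ X ∧ #G ≤ γ} ≤ 2 ^ γ := by
    refine (mk_bounded_subset_le (M ∩ X) γ).trans ?_
    have h1 : max #(M ∩ X : Set P) ℵ₀ ≤ 2 ^ γ :=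
      max_le ((mk_le_mk_of_subset inter_subset_left).trans hM1) h2
    exact (power_le_power_right h1).trans hpow
  refine hY ((Cov.iUnion (ι := {G : Set P // G ⊆ M ∩ X ∧ #G ≤ γ})
    (X := fun G => Tr (CC G.1) Y (NN G.1)) fun G => hN3 G.1).mono ?_ ?_)
  · intro y hy
    set G : Set P := {g | g ∈ M ∩ X ∧ ¬ g ≤ y ∧ ∀ z ∈ M ∩ X, ¬ z ≤ y → ¬ z < g} with hG
    have hGX : G ⊆ M ∩ X := fun g hg => hg.1
    have hGa : IsAntichain (· ≤ ·) G := by
      intro a ha b hb hab hle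
      exact hb.2.2 a ha.1 ha.2.1 (lt_of_le_of_ne hle hab)
    have hGγ : #G ≤ γ := hX G (hGX.trans inter_subset_right) hGa
    refine mem_iUnion.2 ⟨⟨G, hGX, hGγ⟩, hy, fun x hx => ?_⟩
    have hxM : x ∈ M := hM2 G (hGX.trans inter_subset_left) hGγ hx
    have hxX : x ∈ X := hN1 G hx
    constructor
    · rintro hxy ⟨g, hg, hgx⟩
      exact hg.2.1 (hgx.trans hxy)
    · intro hxC
      by_contra hxy
      obtain ⟨g, ⟨hg1, hg2, hg3⟩, hmin⟩ := hwf.has_min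
        {z | z ∈ M ∩ X ∧ ¬ z ≤ y ∧ z ≤ x} ⟨x, ⟨hxM, hxX⟩, hxy, le_rfl⟩
      refine hxC ⟨g, ⟨hg1, hg2, fun z hz hzy hzg => ?_⟩, hg3⟩
      exact hmin z ⟨hz, hzy, hzg.le.trans hg3⟩ hzg
  · calc #{G : Set P // G ⊆ M ∩ X ∧ #G ≤ γ} * 2 ^ γ ≤ 2 ^ γ * 2 ^ γ := by gcongr
      _ = 2 ^ γ := mul_eq_self h2

end Pool.Agent.MPcfac02
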