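import Mathlib
import Pool.Agent.Lib.MP_cfac02_lc.Types

namespace Pool.Agent.MPcfac02

open Cardinal Set Order

universe u

/-- Either `R` has an infinite increasing chain or there is a free increasing sequence. -/
theorem exists_chain_or_free {κ : Cardinal.{u}} (hκ : κ.IsRegular)
    (R : κ.ord.ToType → κ.ord.ToType → Prop) :
    (∃ i : ℕ → κ.ord.ToType, ∀ n, i n < i (n + 1) ∧ R (i n) (i (n + 1))) ∨
      ∃ h : κ.ord.ToType → κ.ord.ToType, StrictMono h ∧ ∀ a b, a < b → ¬ R (h a) (h b) := by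
  classical
  have hκ1 : (1 : Cardinal.{u}) < κ := one_lt_aleph0.trans_le hκ.aleph0_le
  by_cases hc : ∀ H : Set κ.ord.ToType, (∀ x, ∃ y ∈ H, x < y) →
      ∃ i ∈ H, ∀ x, ∃ y ∈ H, x < y ∧ i < y ∧ R i y
  · left
    set U := {H : Set κ.ord.ToType // ∀ x, ∃ y ∈ H, x < y} with hU
    choose f hf1 hf2 using fun H : U => hc H.1 H.2
    let nx : U → U := fun H => ⟨{y | y ∈ H.1 ∧ f H < y ∧ R (f H) y}, fun x => by
      obtain ⟨y, hy, h1, h2, h3⟩ := hf2 H x
      exact ⟨y, ⟨hy, h2, h3⟩, h1⟩⟩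
    let U0 : U := ⟨Set.univ, fun x => by
      obtain ⟨i, hi⟩ := exists_ub hκ {x} (by rw [mk_singleton]; exact hκ1)
      exact ⟨i, mem_univ i, hi x rfl⟩⟩
    refine ⟨fun n => f (nx^[n] U0), fun n => ?_⟩
    have h1 := hf1 (nx^[n + 1] U0)
    have h2 : nx^[n + 1] U0 = nx (nx^[n] U0) := Function.iterate_succ_apply' nx n U0
    have h3 : f (nx^[n + 1] U0) ∈ (nx (nx^[n] U0)).1 := by
      rw [← h2]
      exact h1
    exact ⟨h3.2.1, h3.2.2⟩
  · right
    push Not at hc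
    obtain ⟨H, hH1, hH2⟩ := hc
    have hb : ∀ i, ∃ x, i ∈ H → ∀ y ∈ H, x < y → i < y → ¬ R i y := by
      intro i
      by_cases hi : i ∈ H
      · obtain ⟨x, hx⟩ := hH2 i hi
        exact ⟨x, fun _ => hx⟩
      · exact ⟨i, fun h => absurd h hi⟩
    choose b hb using hb
    have hne : Nonempty κ.ord.ToType := by
      rw [← mk_ne_zero_iff, mk_toType, card_ord]
      exact (zero_lt_one.trans hκ1).ne'
    obtain ⟨h, hh⟩ := exists_rec (I := κ.ord.ToType) (α := κ.ord.ToType)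
      (fun i T a => a ∈ H ∧ ∀ t ∈ T, t < a ∧ b t < a) (by
        intro i f hf
        obtain ⟨x, hx⟩ := exists_ub hκ (f '' Iio i ∪ b '' (f '' Iio i)) (by
          refine (mk_union_le _ _).trans_lt ?_
          have h1 : #(f '' Iio i) < κ := mk_image_le.trans_lt (mk_Iio_ord_lt i)
          exact add_lt_of_lt hκ.aleph0_le h1 (mk_image_le.trans_lt h1))
        obtain ⟨y, hy, hxy⟩ := hH1 x
        refine ⟨y, hy, fun t ht => ⟨(hx t (Or.inl ht)).trans hxy, ?_⟩⟩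
        exact (hx (b t) (Or.inr ⟨t, ht, rfl⟩)).trans hxy)
    refine ⟨h, fun i j hij => ((hh j).2 _ ⟨i, hij, rfl⟩).1, fun i j hij => ?_⟩
    obtain ⟨h1, h2⟩ := (hh j).2 _ ⟨i, hij, rfl⟩
    exact hb (h i) (hh i).1 (h j) (hh j).1 h2 h1

end Pool.Agent.MPcfac02
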