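import Mathlib
import Pool.Agent.Lib.MP_cfac02_lc.Chain

namespace Pool.Agent.MPcfac02

open Cardinal Set Order

universe u

variable {P : Type u} [PartialOrder P] {μ : Cardinal.{u}}

/-- No infinite chain of positive pairs. -/
theorem no_omega_chain {X C : ℕ → Set P} {σ : ℕ → Cardinal.{u}} (hσ : ∀ n, 1 ≤ σ n)
    (hpos : ∀ n, ∀ N : Set P, N.Finite → (n = 0 → N = ∅) →
      (∀ m, n = m + 1 → N ⊆ X m) → ¬ Cov (Tr (C n) (X n) N ∩ C (n + 1)) (σ n)) : False := by
  set D : ℕ → Set P := fun n => X n ∩ C (n + 1) with hD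
  have h1 : ∀ n, ∀ x ∈ D n, ∀ y ∈ D n, ∃ z ∈ D (n + 1), x ≤ z ∧ y ≤ z := by
    intro n x hx y hy
    have h2 := hpos (n + 1) {x, y} (by simp) (by simp) (by
      intro m hm
      obtain rfl : n = m := by omega
      rintro z (rfl | rfl)
      · exact hx.1
      · exact hy.1)
    have h3 : (Tr (C (n + 1)) (X (n + 1)) {x, y} ∩ C (n + 1 + 1)).Nonempty := by
      by_contra hne
      rw [not_nonempty_iff_eq_empty] at hne
      rw [hne] at h2
      exact h2 (cov_empty _)
    obtain ⟨z, ⟨hz1, hz2⟩, hz3⟩ := h3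
    exact ⟨z, ⟨hz1, hz3⟩, (hz2 x (by simp)).2 hx.2, (hz2 y (by simp)).2 hy.2⟩
  have h2 : ∀ n k, ∀ x ∈ D n, ∃ z ∈ D (n + k), x ≤ z := by
    intro n k
    induction k with
    | zero => exact fun x hx => ⟨x, hx, le_rfl⟩
    | succ k ih =>
      intro x hx
      obtain ⟨z, hz, hxz⟩ := ih x hx
      obtain ⟨w, hw, hzw, _⟩ := h1 _ z hz z hz
      exact ⟨w, hw, hxz.trans hzw⟩
  have h3 : DirectedOn (· ≤ ·) (⋃ n, D n) := by
    intro x hx y hy
    obtain ⟨n, hn⟩ := mem_iUnion.1 hx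
    obtain ⟨m, hm⟩ := mem_iUnion.1 hy
    obtain ⟨x', hx', hxx'⟩ := h2 n m x hn
    obtain ⟨y', hy', hyy'⟩ := h2 m n y hm
    rw [add_comm m n] at hy'
    obtain ⟨z, hz, h4, h5⟩ := h1 _ x' hx' y' hy'
    exact ⟨z, mem_iUnion.2 ⟨_, hz⟩, hxx'.trans h4, hyy'.trans h5⟩
  refine hpos 0 ∅ (by simp) (fun _ => rfl) (fun m hm => by omega) ?_
  refine (cov_of_directed h3).mono ?_ (hσ 0)
  rintro x ⟨⟨hx1, -⟩, hx2⟩
  exact mem_iUnion.2 ⟨0, hx1, hx2⟩

/-- In a well-founded poset without antichains of size `μ`, the sets with bounded antichains are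
uniformly covered by fewer than `μ` ideals. -/
theorem bounded_uniform (hμ : μ.IsStrongLimit) (hs : μ.ord.cof < μ)
    (hwf : WellFounded ((· < ·) : P → P → Prop))
    (hP : ∀ A : Set P, IsAntichain (· ≤ ·) A → #A < μ) :
    ∃ σ < μ, ∀ X : Set P, (∃ b < μ, Aa X b) → Cov X σ := by
  classical
  by_contra hcon
  push Not at hcon
  have h0 := aleph0_lt hμ hs
  have hκ : μ.ord.cof.IsRegular := regular_cof hμ
  obtain ⟨lam, hlam1, hlam2⟩ := exists_cofinal_seq μ
  -- choice of bad sets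
  have hX : ∀ χ : Cardinal.{u}, ∃ (X : Set P) (b : Cardinal.{u}), b < μ ∧ Aa X b ∧
      (χ < μ → ¬ Cov X χ) := by
    intro χ
    by_cases hχ : χ < μ
    · obtain ⟨X, ⟨b, hb, hX⟩, hn⟩ := hcon χ hχ
      exact ⟨X, b, hb, hX, fun _ => hn⟩
    · refine ⟨∅, 0, aleph0_pos.trans h0, ?_, fun h => absurd h hχ⟩
      intro A hA _
      have : A = ∅ := subset_empty_iff.1 hA
      rw [this]
      simp
  choose XX bb hbb hXX hnc using hX
  -- the cardinals
  obtain ⟨γ, hγ⟩ := exists_rec (I := μ.ord.cof.ord.ToType) (α := Cardinal.{u})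
    (fun i T a => a < μ ∧ ℵ₀ ≤ a ∧ μ.ord.cof ≤ a ∧ lam i ≤ a ∧ ∀ t ∈ T, 2 ^ t ≤ a ∧ bb (2 ^ t) ≤ a)
    (by
      intro i f hf
      set c : Cardinal.{u} := ⨆ j : Iio i, max (2 ^ f j) (bb (2 ^ f j)) with hc
      have h1 : c < μ := by
        refine iSup_lt_of_lt_cof_ord (mk_Iio_ord_lt i) ?_
        intro j
        exact max_lt (hμ.isStrongPrelimit (hf j.1 j.2).1) (hbb _)
      have h2 : ∀ j < i, max (2 ^ f j) (bb (2 ^ f j)) ≤ c := fun j hj =>
        le_ciSup (f := fun j : Iio i => max (2 ^ f j) (bb (2 ^ f j))) bddAbove_of_small ⟨j, hj⟩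
      refine ⟨max (max ℵ₀ μ.ord.cof) (max (lam i) c), ?_, ?_, ?_, ?_, ?_⟩
      · exact max_lt (max_lt h0 hs) (max_lt (hlam1 i) h1)
      · exact (le_max_left _ _).trans (le_max_left _ _)
      · exact (le_max_right _ _).trans (le_max_left _ _)
      · exact (le_max_left _ _).trans (le_max_right _ _)
      · rintro _ ⟨j, hj, rfl⟩
        have h3 := h2 j hj
        have h4 : c ≤ max (max ℵ₀ μ.ord.cof) (max (lam i) c) :=
          (le_max_right _ _).trans (le_max_right _ _)
        exact ⟨(le_max_left _ _).trans (h3.trans h4), (le_max_right _ _).trans (h3.trans h4)⟩)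
  have hγμ : ∀ i, γ i < μ := fun i => (hγ i).1
  have hγ0 : ∀ i, ℵ₀ ≤ γ i := fun i => (hγ i).2.1
  have hγκ : ∀ i, μ.ord.cof ≤ γ i := fun i => (hγ i).2.2.1
  have hγlam : ∀ i, lam i ≤ γ i := fun i => (hγ i).2.2.2.1
  have hγlt : ∀ i j, i < j → 2 ^ γ i ≤ γ j := fun i j hij => ((hγ j).2.2.2.2 _ ⟨i, hij, rfl⟩).1
  have hγb : ∀ i j, i < j → bb (2 ^ γ i) ≤ γ j := fun i j hij =>
    ((hγ j).2.2.2.2 _ ⟨i, hij, rfl⟩).2
  have hγmono : ∀ i j, i ≤ j → γ i ≤ γ j := by
    intro i j hij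
    rcases hij.eq_or_lt with rfl | h
    · exact le_rfl
    · exact (cantor _).le.trans (hγlt i j h)
  set σ : μ.ord.cof.ord.ToType → Cardinal.{u} := fun i => 2 ^ γ i with hσ
  have hσμ : ∀ i, σ i < μ := fun i => hμ.isStrongPrelimit (hγμ i)
  have hγσ : ∀ i, γ i ≤ σ i := fun i => (cantor _).le
  have hσ0 : ∀ i, ℵ₀ ≤ σ i := fun i => (hγ0 i).trans (hγσ i)
  set X : μ.ord.cof.ord.ToType → Set P := fun i => XX (σ i) with hXdef
  set XL : μ.ord.cof.ord.ToType → Set P := fun i => ⋃ j : Iio i, X j.1 with hXL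
  have hXnc : ∀ i, ¬ Cov (X i) (σ i) := fun i => hnc _ (hσμ i)
  have hXa : ∀ i j, i < j → Aa (X i) (γ j) := fun i j hij =>
    (hXX (σ i)).mono le_rfl (hγb i j hij)
  have hXLa : ∀ i, Aa (XL i) (γ i) := by
    intro i
    refine Aa.iUnion (hγ0 i) ?_ fun j => hXa j.1 i j.2
    exact (mk_Iio_ord_lt i).le.trans (hγκ i)
  have hXXL : ∀ i j, i < j → X i ⊆ XL j := fun i j hij =>
    subset_iUnion (fun k : Iio j => X k.1) ⟨i, hij⟩
  -- types
  choose C hC using fun i => exists_type_trace hwf (hγ0 i) (hXLa i) (hXnc i)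
  set Pos : μ.ord.cof.ord.ToType → μ.ord.cof.ord.ToType → Prop := fun i j =>
    ∀ N ⊆ XL i, #N ≤ σ i → ¬ Cov (Tr (C i) (X i) N ∩ C j) (σ i) with hPos
  rcases exists_chain_or_free hκ Pos with ⟨s, hs'⟩ | ⟨h, hh, hfree⟩
  · refine no_omega_chain (X := fun n => X (s n)) (C := fun n => C (s n))
      (σ := fun n => σ (s n)) (fun n => one_lt_aleph0.le.trans (hσ0 _)) ?_
    intro n N hN h3 h4
    refine (hs' n).2 N ?_ ?_
    · rcases n with _ | m
      · rw [h3 rfl]
        exact empty_subset _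
      · exact (h4 m rfl).trans (hXXL _ _ (hs' m).1)
    · exact (hN.lt_aleph0.le).trans (hσ0 _)
  · -- the free case
    simp only [hPos] at hfree
    push Not at hfree
    have hN : ∀ a b, ∃ N ⊆ XL (h a), #N ≤ σ (h a) ∧
        (a < b → Cov (Tr (C (h a)) (X (h a)) N ∩ C (h b)) (σ (h a))) := by
      intro a b
      by_cases hab : a < b
      · obtain ⟨N, h1, h2, h3⟩ := hfree a b hab
        exact ⟨N, h1, h2, fun _ => h3⟩
      · exact ⟨∅, empty_subset _, by simp, fun h => absurd h hab⟩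
    choose N hN1 hN2 hN3 using hN
    have hmulσ : ∀ i, μ.ord.cof * σ i ≤ σ i := by
      intro i
      calc μ.ord.cof * σ i ≤ σ i * σ i := by
            gcongr
            exact (hγκ i).trans (hγσ i)
        _ = σ i := mul_eq_self (hσ0 i)
    have hmulγ : ∀ i, μ.ord.cof * γ i ≤ γ i := by
      intro i
      calc μ.ord.cof * γ i ≤ γ i * γ i := by
            gcongr
            exact hγκ i
        _ = γ i := mul_eq_self (hγ0 i)
    obtain ⟨Z, hZ⟩ := exists_rec (I := μ.ord.cof.ord.ToType) (α := Set P)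
      (fun a T A => A ⊆ X (h a) ∧ (∀ y ∈ A, ∀ x ∈ ⋃₀ T, (x ≤ y ↔ x ∈ C (h a))) ∧
        (∀ y ∈ A, ∀ b, a < b → y ∉ C (h b)) ∧ (∀ y ∈ A, y ∉ dn (⋃₀ T)) ∧
        IsAntichain (· ≤ ·) A ∧ γ (h a) < #A) (by
        intro a f hf
        set W : Set P := ⋃₀ (f '' Iio a) with hW
        have hWeq : W = ⋃ j : Iio a, f j.1 := by
          rw [hW, sUnion_image, biUnion_eq_iUnion]
        have hWX : W ⊆ XL (h a) := by
          rw [hWeq]
          refine iUnion_subset fun j => ?_
          exact (hf j.1 j.2).1.trans (hXXL _ _ (hh j.2))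
        have hWγ : #W ≤ γ (h a) := by
          rw [hWeq]
          refine (mk_iUnion_le_sum_mk).trans ?_
          refine (Cardinal.sum_le_sum _ (fun _ => γ (h a)) fun j => ?_).trans ?_
          · have hj := hf j.1 j.2
            exact hXa _ _ (hh j.2) _ hj.1 hj.2.2.2.2.1
          · rw [sum_const']
            refine le_trans ?_ (hmulγ (h a))
            gcongr
            exact (mk_Iio_ord_lt a).le
        set NN : Set P := (⋃ b, N a b) ∪ W with hNN
        have hNNX : NN ⊆ XL (h a) := union_subset (iUnion_subset fun b => hN1 a b) hWX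
        have hNNσ : #NN ≤ σ (h a) := by
          refine (mk_union_le _ _).trans ?_
          refine le_trans (add_le_add ?_ (hWγ.trans (hγσ _))) (add_eq_self (hσ0 _)).le
          refine (mk_iUnion_le_sum_mk).trans ?_
          refine (Cardinal.sum_le_sum _ (fun _ => σ (h a)) fun b => hN2 a b).trans ?_
          rw [sum_const', mk_toType, card_ord]
          exact hmulσ _
        set E : Set P := ⋃ b, (if a < b then Tr (C (h a)) (X (h a)) NN ∩ C (h b) else ∅) with hE
        have hEc : Cov E (σ (h a)) := by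
          refine (Cov.iUnion (c := σ (h a)) fun b => ?_).mono le_rfl ?_
          · by_cases hab : a < b
            · rw [if_pos hab]
              refine (hN3 a b hab).mono (inter_subset_inter_left _ (tr_anti ?_)) le_rfl
              exact (subset_iUnion (N a) b).trans subset_union_left
            · rw [if_neg hab]
              exact cov_empty _
          · rw [mk_toType, card_ord]
            exact hmulσ _
        have hWc : Cov (dn W) (σ (h a)) := (cov_dn W).mono le_rfl (hWγ.trans (hγσ _))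
        set B : Set P := {y | y ∈ Tr (C (h a)) (X (h a)) NN ∧ y ∉ E ∧ y ∉ dn W} with hB
        have hBc : ¬ Cov B (σ (h a)) := by
          intro hc
          refine hC (h a) NN hNNX hNNσ (((hc.union hEc).union hWc).mono ?_ ?_)
          · intro y hy
            by_cases h1 : y ∈ E
            · exact Or.inl (Or.inr h1)
            · by_cases h2 : y ∈ dn W
              · exact Or.inr h2
              · exact Or.inl (Or.inl ⟨hy, h1, h2⟩)
          · rw [add_eq_self (hσ0 _), add_eq_self (hσ0 _)]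
        obtain ⟨A, hAB, hA1, hA2⟩ : ∃ A ⊆ B, IsAntichain (· ≤ ·) A ∧ γ (h a) < #A := by
          by_contra hc
          push Not at hc
          exact hBc (cov_of_antichains (hγ0 _) hc)
        refine ⟨A, fun y hy => (hAB hy).1.1, fun y hy x hx => ?_, fun y hy b hab hyb => ?_,
          fun y hy => (hAB hy).2.2, hA1, hA2⟩
        · exact (hAB hy).1.2 x (Or.inr hx)
        · refine (hAB hy).2.1 (mem_iUnion.2 ⟨b, ?_⟩)
          rw [if_pos hab]
          exact ⟨(hAB hy).1, hyb⟩)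
    have hanti : IsAntichain (· ≤ ·) (⋃ i, Z i) := by
      intro x hx y hy hxy hle
      obtain ⟨i, hi⟩ := mem_iUnion.1 hx
      obtain ⟨j, hj⟩ := mem_iUnion.1 hy
      rcases lt_trichotomy i j with hij | hij | hij
      · have h1 := (hZ j).2.1 y hj x ⟨Z i, ⟨i, hij, rfl⟩, hi⟩
        exact (hZ i).2.2.1 x hi j hij (h1.1 hle)
      · subst hij
        exact (hZ i).2.2.2.2.1 hi hj hxy hle
      · exact (hZ i).2.2.2.1 x hi ⟨y, ⟨Z j, ⟨j, hij, rfl⟩, hj⟩, hle⟩
    have hlt := hP _ hanti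
    obtain ⟨i, hi⟩ := hlam2 _ hlt
    have h2 : #(Z i) ≤ #(⋃ i, Z i : Set P) := mk_le_mk_of_subset (subset_iUnion Z i)
    have h3 : lam i ≤ γ (h i) := (hγlam i).trans (hγmono _ _ (hh.le_apply))
    exact absurd (h3.trans_lt (hZ i).2.2.2.2.2) (not_lt.2 (h2.trans hi))

end Pool.Agent.MPcfac02
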