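import Mathlib
import Pool.Agent.Lib.MP_cfac02_lc.Setup

namespace Pool.Agent.MPcfac02

open Cardinal Set Order

universe u

variable {P : Type u} [PartialOrder P] {μ : Cardinal.{u}}

/-- `X` minus the lower set of at most `t` points has no antichain of size above `t`. -/
def KK (t : Cardinal.{u}) (X : Set P) : Prop :=
  ∃ R : Set P, #R ≤ t ∧ ∀ A ⊆ X \ dn R, IsAntichain (· ≤ ·) A → #A ≤ t

theorem KK.mono {t : Cardinal.{u}} {X Y : Set P} (h : KK t Y) (hXY : X ⊆ Y) : KK t X := by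
  obtain ⟨R, hR, hA⟩ := h
  exact ⟨R, hR, fun A hAX => hA A (hAX.trans (sdiff_subset_sdiff_left hXY))⟩

theorem kk_dn {t : Cardinal.{u}} {R : Set P} (h : #R ≤ t) : KK t (dn R) :=
  ⟨R, h, fun A hA _ => by
    have : A = ∅ := by
      rw [Set.eq_empty_iff_forall_notMem]
      intro x hx
      exact (hA hx).2 (hA hx).1
    rw [this]
    simp⟩

theorem KK.iUnion {t : Cardinal.{u}} (ht : ℵ₀ ≤ t) {ι : Type u} {X : ι → Set P} (hι : #ι ≤ t)
    (h : ∀ i, KK t (X i)) : KK t (⋃ i, X i) := by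
  choose R hR hA using h
  have hmul : t * t = t := mul_eq_self ht
  refine ⟨⋃ i, R i, ?_, fun A hAX hAa => ?_⟩
  · refine (mk_iUnion_le_sum_mk).trans ?_
    refine (Cardinal.sum_le_sum _ (fun _ => t) hR).trans ?_
    rw [sum_const']
    calc #ι * t ≤ t * t := by gcongr
      _ = t := hmul
  · have h1 : A ⊆ ⋃ i, (A ∩ (X i \ dn (R i))) := by
      intro x hx
      obtain ⟨hx1, hx2⟩ := hAX hx
      obtain ⟨i, hi⟩ := mem_iUnion.1 hx1
      refine mem_iUnion.2 ⟨i, hx, hi, fun hc => hx2 ?_⟩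
      exact dn_mono (subset_iUnion R i) hc
    refine (mk_le_mk_of_subset h1).trans ?_
    refine (mk_iUnion_le_sum_mk).trans ?_
    refine (Cardinal.sum_le_sum _ (fun _ => t) fun i =>
      hA i _ inter_subset_right (hAa.subset inter_subset_left)).trans ?_
    rw [sum_const']
    calc #ι * t ≤ t * t := by gcongr
      _ = t := hmul

theorem KK.union {t : Cardinal.{u}} (ht : ℵ₀ ≤ t) {X Y : Set P} (hX : KK t X) (hY : KK t Y) :
    KK t (X ∪ Y) := by
  have h1 : X ∪ Y = ⋃ b : ULift.{u} Bool, (if b.down then X else Y) := by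
    ext x
    simp only [mem_union, mem_iUnion]
    constructor
    · rintro (h | h)
      · exact ⟨⟨true⟩, by simpa using h⟩
      · exact ⟨⟨false⟩, by simpa using h⟩
    · rintro ⟨⟨b⟩, hb⟩
      cases b
      · right; simpa using hb
      · left; simpa using hb
  rw [h1]
  refine KK.iUnion ht ?_ ?_
  · have : #(ULift.{u} Bool) < ℵ₀ := lt_aleph0_of_finite _
    exact this.le.trans ht
  · rintro ⟨b⟩
    cases b
    · simpa using hY
    · simpa using hX

theorem KK.cov {t : Cardinal.{u}} (ht : ℵ₀ ≤ t) {X : Set P} (h : KK t X) : Cov X (2 ^ t) := by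
  obtain ⟨R, hR, hA⟩ := h
  have h1 : Cov (X \ dn R) (2 ^ t) := cov_of_antichains ht hA
  have h2 : Cov (dn R) (2 ^ t) := (cov_dn R).mono le_rfl (hR.trans (cantor t).le)
  have h3 := h1.union h2
  rw [add_eq_self (ht.trans (cantor t).le)] at h3
  refine h3.mono ?_ le_rfl
  intro x hx
  by_cases hxR : x ∈ dn R
  · exact Or.inr hxR
  · exact Or.inl ⟨hx, hxR⟩

/-- A set of size at most `μ` is a union of `cof μ` sets of size less than `μ`. -/
theorem exists_small_pieces (hμ : μ.IsStrongLimit) (X : Set P) (hX : #X ≤ μ) :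
    ∃ Y : μ.ord.cof.ord.ToType → Set P, (∀ i, #(Y i) < μ) ∧ X ⊆ ⋃ i, Y i := by
  have h1 : #X ≤ #μ.ord.ToType := by rwa [mk_toType, card_ord]
  obtain ⟨g⟩ := h1
  obtain ⟨S, hS1, hS2⟩ := Order.exists_cof_eq (α := μ.ord.ToType)
  rw [Ordinal.cof_toType] at hS2
  have h1 : #μ.ord.cof.ord.ToType = #S := by rw [mk_toType, card_ord, hS2]
  obtain ⟨e⟩ := Cardinal.eq.1 h1
  refine ⟨fun i => Subtype.val '' {x : X | g x ≤ e i}, fun i => ?_, ?_⟩
  · refine mk_image_le.trans_lt ?_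
    have h2 : #{x : X | g x ≤ e i} ≤ #(Iic (e i : μ.ord.ToType)) := by
      refine mk_le_of_injective (f := fun x => ⟨g x.1, x.2⟩) ?_
      intro a b hab
      have h3 : g a.1 = g b.1 := congrArg Subtype.val hab
      exact Subtype.ext (g.injective h3)
    refine h2.trans_lt ?_
    have h3 : (Iic (e i : μ.ord.ToType)) ⊆ insert (e i : μ.ord.ToType) (Iio (e i : μ.ord.ToType)) := by
      intro x hx
      rcases (mem_Iic.1 hx).eq_or_lt with h | h
      · exact Or.inl h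
      · exact Or.inr h
    refine (mk_le_mk_of_subset h3).trans_lt ?_
    refine mk_insert_le.trans_lt ?_
    exact add_lt_of_lt hμ.aleph0_le (mk_Iio_ord_lt _) (one_lt_aleph0.trans_le hμ.aleph0_le)
  · intro x hx
    obtain ⟨s, hs, hxs⟩ := hS1 (g ⟨x, hx⟩)
    refine mem_iUnion.2 ⟨e.symm ⟨s, hs⟩, ⟨x, hx⟩, ?_, rfl⟩
    simpa using hxs

/-- Uniform bound. -/
theorem uniform (hμ : μ.IsStrongLimit) (hs : μ.ord.cof < μ)
    (hP : ∀ A : Set P, IsAntichain (· ≤ ·) A → #A < μ) :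
    ∃ t < μ, ℵ₀ ≤ t ∧ ∀ X : Set P, #X ≤ μ → KK t X := by
  classical
  by_contra hcon
  push Not at hcon
  obtain ⟨lam, hlam1, hlam2⟩ := exists_cofinal_seq μ
  have h0 := aleph0_lt hμ hs
  -- one step
  have hstep : ∀ (i : μ.ord.cof.ord.ToType) (G : Set P), #G < μ →
      ∃ F : Set P, #F < μ ∧ (∀ x ∈ F, x ∉ dn G) ∧ (∀ x ∈ F, ∀ y ∈ F, ∀ z ∈ G, z ≤ x → z ≤ y) ∧
        ∃ t, ℵ₀ ≤ t ∧ μ.ord.cof ≤ t ∧ lam i ≤ t ∧ ¬ KK t F := by
    intro i G hG
    set t : Cardinal.{u} := max (max ℵ₀ μ.ord.cof) (max (lam i) (2 ^ #G)) with ht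
    have ht0 : ℵ₀ ≤ t := (le_max_left _ _).trans (le_max_left _ _)
    have htc : μ.ord.cof ≤ t := (le_max_right _ _).trans (le_max_left _ _)
    have htl : lam i ≤ t := (le_max_left _ _).trans (le_max_right _ _)
    have htG : 2 ^ #G ≤ t := (le_max_right _ _).trans (le_max_right _ _)
    have htμ : t < μ := max_lt (max_lt h0 hs) (max_lt (hlam1 i) (hμ.isStrongPrelimit hG))
    obtain ⟨X, hX, hXK⟩ := hcon t htμ ht0
    obtain ⟨Y, hY1, hY2⟩ := exists_small_pieces hμ X hX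
    obtain ⟨k, hk⟩ : ∃ k, ¬ KK t (Y k) := by
      by_contra hc
      push Not at hc
      refine hXK ((KK.iUnion ht0 ?_ hc).mono hY2)
      rw [mk_toType, card_ord]
      exact htc
    have h1 : ¬ KK t (Y k \ dn G) := by
      intro h
      refine hk ((h.union ht0 (kk_dn ((cantor #G).le.trans htG))).mono ?_)
      intro x hx
      by_cases hxG : x ∈ dn G
      · exact Or.inr hxG
      · exact Or.inl ⟨hx, hxG⟩
    -- trace classes
    obtain ⟨C, hC⟩ : ∃ C : Set G, ¬ KK t {x | x ∈ Y k \ dn G ∧ {z : G | (z : P) ≤ x} = C} := by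
      by_contra hc
      push Not at hc
      refine h1 ((KK.iUnion ht0 ?_ hc).mono ?_)
      · rw [mk_set]
        exact htG
      · intro x hx
        exact mem_iUnion.2 ⟨{z : G | (z : P) ≤ x}, hx, rfl⟩
    refine ⟨_, ?_, ?_, ?_, t, ht0, htc, htl, hC⟩
    · refine (mk_le_mk_of_subset ?_).trans_lt (hY1 k)
      rintro x ⟨hx, _⟩
      exact hx.1
    · rintro x ⟨hx, _⟩
      exact hx.2
    · rintro x ⟨_, hx⟩ y ⟨_, hy⟩ z hz hzx
      have h2 : (⟨z, hz⟩ : G) ∈ C := by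
        rw [← hx]
        exact hzx
      rw [← hy] at h2
      exact h2
  obtain ⟨F, hF⟩ := exists_rec (I := μ.ord.cof.ord.ToType) (α := Set P)
    (fun i T A => #A < μ ∧ (∀ x ∈ A, x ∉ dn (⋃₀ T)) ∧
      (∀ x ∈ A, ∀ y ∈ A, ∀ z ∈ ⋃₀ T, z ≤ x → z ≤ y) ∧
        ∃ t, ℵ₀ ≤ t ∧ μ.ord.cof ≤ t ∧ lam i ≤ t ∧ ¬ KK t A) (by
      intro i f hf
      refine hstep i _ ?_
      rw [sUnion_image, biUnion_eq_iUnion]
      refine (mk_iUnion_le_sum_mk).trans_lt ?_
      refine (sum_le_mk_mul_iSup _).trans_lt ?_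
      refine mul_lt_of_lt hμ.aleph0_le ((mk_Iio_ord_lt i).trans hs) ?_
      refine iSup_lt_of_lt_cof_ord (mk_Iio_ord_lt i) ?_
      intro j
      exact (hf j.1 j.2).1)
  -- nonemptiness
  have hne : ∀ i, (F i).Nonempty := by
    intro i
    obtain ⟨-, -, -, t, ht0, -, -, ht⟩ := hF i
    by_contra hc
    rw [not_nonempty_iff_eq_empty] at hc
    refine ht ⟨∅, by simp, fun A hA _ => ?_⟩
    rw [hc] at hA
    have : A = ∅ := subset_empty_iff.1 (hA.trans sdiff_subset)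
    rw [this]
    simp
  choose x hx using hne
  -- antichains
  have hZ : ∀ i, ∃ Z ⊆ F i, IsAntichain (· ≤ ·) Z ∧ lam i < #Z ∧ ∀ z ∈ Z, ∀ j, i < j → ¬ z ≤ x j := by
    intro i
    obtain ⟨-, -, -, t, ht0, htc, htl, ht⟩ := hF i
    have h1 : ¬ KK t (F i \ dn (range x)) := by
      intro h
      refine ht ((h.union ht0 (kk_dn (R := range x) ?_)).mono ?_)
      · refine mk_range_le.trans ?_
        rw [mk_toType, card_ord]
        exact htc
      · intro y hy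
        by_cases hyx : y ∈ dn (range x)
        · exact Or.inr hyx
        · exact Or.inl ⟨hy, hyx⟩
    have h2 : ∃ Z ⊆ F i \ dn (range x), IsAntichain (· ≤ ·) Z ∧ t < #Z := by
      by_contra hc
      push Not at hc
      exact h1 ⟨∅, by simp, fun A hA => hc A (hA.trans sdiff_subset)⟩
    obtain ⟨Z, hZ1, hZ2, hZ3⟩ := h2
    refine ⟨Z, fun z hz => (hZ1 hz).1, hZ2, htl.trans_lt hZ3, fun z hz j _ hzj => ?_⟩
    exact (hZ1 hz).2 ⟨x j, mem_range_self j, hzj⟩
  choose Z hZ1 hZ2 hZ3 hZ4 using hZ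
  have hanti : IsAntichain (· ≤ ·) (⋃ i, Z i) := by
    intro a ha b hb hab hle
    obtain ⟨i, hi⟩ := mem_iUnion.1 ha
    obtain ⟨j, hj⟩ := mem_iUnion.1 hb
    rcases lt_trichotomy i j with h | h | h
    · refine hZ4 i a hi j h ?_
      exact (hF j).2.2.1 b (hZ1 j hj) (x j) (hx j) a ⟨F i, ⟨i, h, rfl⟩, hZ1 i hi⟩ hle
    · subst h
      exact hZ2 i hi hj hab hle
    · exact (hF i).2.1 a (hZ1 i hi) ⟨b, ⟨F j, ⟨j, h, rfl⟩, hZ1 j hj⟩, hle⟩
  have hlt := hP _ hanti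
  obtain ⟨i, hi⟩ := hlam2 _ hlt
  have h2 : #(Z i) ≤ #(⋃ i, Z i : Set P) := mk_le_mk_of_subset (subset_iUnion Z i)
  exact absurd (hZ3 i) (not_lt.2 (h2.trans hi))

end Pool.Agent.MPcfac02
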