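import Mathlib
import Pool.Agent.Lib.MP_cfac02_lc.Uniform

namespace Pool.Agent.MPcfac02

open Cardinal Set Order

universe u

variable {P : Type u} [PartialOrder P] {μ : Cardinal.{u}}

/-- `p` is compatible with everything above `q`. -/
def LS (p q : P) : Prop := ∀ r, q ≤ r → ∃ u, p ≤ u ∧ r ≤ u

theorem bddAbove_of_ls (q : P) (s : Finset P) (hs : ∀ p ∈ s, LS p q) :
    ∀ r, q ≤ r → ∃ u, r ≤ u ∧ ∀ p ∈ s, p ≤ u := by
  classical
  induction s using Finset.induction_on with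
  | empty => exact fun r _ => ⟨r, le_rfl, by simp⟩
  | insert a s ha ih =>
    intro r hr
    obtain ⟨u, hru, hu⟩ := ih (fun p hp => hs p (Finset.mem_insert_of_mem hp)) r hr
    obtain ⟨v, hav, huv⟩ := hs a (Finset.mem_insert_self a s) u (hr.trans hru)
    refine ⟨v, hru.trans huv, fun p hp => ?_⟩
    rcases Finset.mem_insert.1 hp with rfl | hp
    · exact hav
    · exact (hu p hp).trans huv

theorem centered (hμ : μ.IsStrongLimit) (hs : μ.ord.cof < μ)
    (hP : ∀ A : Set P, IsAntichain (· ≤ ·) A → #A < μ) :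
    ∃ 𝓒 : Set (Set P), #𝓒 < μ ∧ (∀ C ∈ 𝓒, ∀ s : Finset P, (s : Set P) ⊆ C →
      BddAbove (s : Set P)) ∧ ⋃₀ 𝓒 = Set.univ := by
  classical
  obtain ⟨t, htμ, ht0, ht⟩ := uniform hμ hs hP
  set c : Cardinal.{u} := 2 ^ ((2 : Cardinal.{u}) ^ t) with hc
  have hcμ : c < μ := hμ.isStrongPrelimit (hμ.isStrongPrelimit htμ)
  have hc0 : ℵ₀ ≤ c := ht0.trans ((cantor _).le.trans (cantor _).le)
  obtain ⟨Y, -, hY1, hY2⟩ := exists_max_pairwise (fun a b : P => ¬ (LS a b ∧ LS b a)) Set.univ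
  have hYc : #Y ≤ c := by
    by_contra hcon
    push Not at hcon
    obtain ⟨Y', hY'Y, hY'⟩ := le_mk_iff_exists_subset.1 (Order.succ_le_of_lt hcon)
    have hw : ∀ p q : P, ∃ r, ¬ LS p q → q ≤ r ∧ ¬ ∃ u, p ≤ u ∧ r ≤ u := by
      intro p q
      by_cases h : LS p q
      · exact ⟨p, fun h' => absurd h h'⟩
      · unfold LS at h
        push Not at h
        obtain ⟨r, hr, hu⟩ := h
        exact ⟨r, fun _ => ⟨hr, fun ⟨u, h1, h2⟩ => hu u h1 h2⟩⟩
    choose w hw using hw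
    set X : Set P := Y' ∪ ((fun p : P × P => w p.1 p.2) '' (Y' ×ˢ Y')) with hX
    have hsc : Order.succ c ≤ μ := Order.succ_le_of_lt hcμ
    have hsc0 : ℵ₀ ≤ Order.succ c := hc0.trans (Order.le_succ c)
    have hXμ : #X ≤ μ := by
      refine (mk_union_le _ _).trans ?_
      have h1 : #((fun p : P × P => w p.1 p.2) '' (Y' ×ˢ Y')) ≤ μ := by
        refine mk_image_le.trans ?_
        rw [mk_setProd]
        simp only [hY']
        rw [mul_eq_self hsc0]
        exact hsc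
      rw [hY']
      exact (add_le_add hsc h1).trans (add_eq_self hμ.aleph0_le).le
    obtain ⟨𝓘, h1, h2, h3⟩ := (ht X hXμ).cov ht0
    have hinj : Function.Injective (fun y : Y' => {I : 𝓘 | (y : P) ∈ I.1}) := by
      intro a b hab
      simp only at hab
      by_contra hne
      have hne' : (a : P) ≠ b := fun h => hne (Subtype.ext h)
      have hab' := hY1 (hY'Y a.2) (hY'Y b.2) hne'
      -- wlog
      have key : ∀ p q : Y', {I : 𝓘 | (p : P) ∈ I.1} = {I : 𝓘 | (q : P) ∈ I.1} →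
          LS (p : P) q := by
        intro p q hpq
        by_contra hls
        obtain ⟨h4, h5⟩ := hw p q hls
        have h6 : w p q ∈ X := Or.inr ⟨((p : P), (q : P)), ⟨p.2, q.2⟩, rfl⟩
        obtain ⟨I, hI, hwI⟩ := h3 h6
        have hqI : (q : P) ∈ I := (h2 I hI).IsLowerSet h4 hwI
        have hpI : (p : P) ∈ I := by
          have : (⟨I, hI⟩ : 𝓘) ∈ {I : 𝓘 | (q : P) ∈ I.1} := hqI
          rw [← hpq] at this
          exact this
        obtain ⟨u, _, hu1, hu2⟩ := (h2 I hI).Directed _ hpI _ hwI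
        exact h5 ⟨u, hu1, hu2⟩
      exact hab' ⟨key a b hab, key b a hab.symm⟩
    have h7 := mk_le_of_injective hinj
    rw [mk_set, hY'] at h7
    have h8 : (2 : Cardinal.{u}) ^ #𝓘 ≤ c := power_le_power_left two_ne_zero h1
    exact absurd (h7.trans h8) (not_le.2 (Order.lt_succ c))
  refine ⟨range (fun y : Y => {p : P | LS p y.1}), ?_, ?_, ?_⟩
  · exact mk_range_le.trans_lt (hYc.trans_lt hcμ)
  · rintro C ⟨y, rfl⟩ s hsC
    obtain ⟨u, -, hu⟩ := bddAbove_of_ls y.1 s (fun p hp => hsC hp) y.1 le_rfl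
    exact ⟨u, fun p hp => hu p hp⟩
  · refine eq_univ_of_univ_subset fun p _ => ?_
    by_cases hpY : p ∈ Y
    · exact ⟨_, ⟨⟨p, hpY⟩, rfl⟩, fun r hr => ⟨r, hr, le_rfl⟩⟩
    · obtain ⟨y, hy, hn⟩ := hY2 p (mem_univ p) hpY
      refine ⟨_, ⟨⟨y, hy⟩, rfl⟩, ?_⟩
      by_contra hls
      exact hn ⟨fun h => hls h.1, fun h => hls h.2⟩

end Pool.Agent.MPcfac02
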