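import Mathlib
import Pool.Agent.Lib.MP_cfac02_lc.Types

namespace Pool.Agent.MPcfac02

open Cardinal Set Order

universe u

variable {P : Type u} [PartialOrder P] {μ : Cardinal.{u}}

/-- Every subset of `B` of size at most `μ` has an upper bound in `B`. -/
def Ty2 (μ : Cardinal.{u}) (B : Set P) : Prop := ∀ A ⊆ B, #A ≤ μ → ∃ z ∈ B, ∀ a ∈ A, a ≤ z

/-- `X` is covered by at most `μ` lower closures of sets with bounded antichains or of
`μ⁺`-directed sets. -/
def Good (μ : Cardinal.{u}) (X : Set P) : Prop :=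
  ∃ 𝓑 : Set (Set P), #𝓑 ≤ μ ∧ (∀ B ∈ 𝓑, (∃ l < μ, Aa B l) ∨ Ty2 μ B) ∧
    ∀ x ∈ X, ∃ B ∈ 𝓑, x ∈ dn B

theorem Good.mono {X Y : Set P} (h : Good μ Y) (hXY : X ⊆ Y) : Good μ X := by
  obtain ⟨𝓑, h1, h2, h3⟩ := h
  exact ⟨𝓑, h1, h2, fun x hx => h3 x (hXY hx)⟩

theorem Good.dn {X : Set P} (h : Good μ X) : Good μ (dn X) := by
  obtain ⟨𝓑, h1, h2, h3⟩ := h
  refine ⟨𝓑, h1, h2, ?_⟩
  rintro x ⟨y, hy, hxy⟩
  obtain ⟨B, hB, b, hb, hyb⟩ := h3 y hy
  exact ⟨B, hB, b, hb, hxy.trans hyb⟩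

theorem Good.iUnion (h0 : ℵ₀ ≤ μ) {ι : Type u} {X : ι → Set P} (hι : #ι ≤ μ)
    (h : ∀ i, Good μ (X i)) : Good μ (⋃ i, X i) := by
  choose 𝓑 h1 h2 h3 using h
  refine ⟨⋃ i, 𝓑 i, ?_, ?_, ?_⟩
  · refine (mk_iUnion_le_sum_mk).trans ?_
    refine (Cardinal.sum_le_sum _ (fun _ => μ) h1).trans ?_
    rw [sum_const']
    calc #ι * μ ≤ μ * μ := by gcongr
      _ = μ := mul_eq_self h0
  · intro B hB
    obtain ⟨i, hi⟩ := mem_iUnion.1 hB
    exact h2 i B hi
  · intro x hx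
    obtain ⟨i, hi⟩ := mem_iUnion.1 hx
    obtain ⟨B, hB, hxB⟩ := h3 i x hi
    exact ⟨B, mem_iUnion.2 ⟨i, hB⟩, hxB⟩

theorem Good.union (h0 : ℵ₀ ≤ μ) {X Y : Set P} (hX : Good μ X) (hY : Good μ Y) :
    Good μ (X ∪ Y) := by
  obtain ⟨𝓑, h1, h2, h3⟩ := hX
  obtain ⟨𝓒, k1, k2, k3⟩ := hY
  refine ⟨𝓑 ∪ 𝓒, ?_, ?_, ?_⟩
  · exact (mk_union_le _ _).trans ((add_le_add h1 k1).trans (add_eq_self h0).le)
  · rintro B (hB | hB)
    · exact h2 B hB
    · exact k2 B hB
  · rintro x (hx | hx)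
    · obtain ⟨B, hB, hxB⟩ := h3 x hx
      exact ⟨B, Or.inl hB, hxB⟩
    · obtain ⟨B, hB, hxB⟩ := k3 x hx
      exact ⟨B, Or.inr hB, hxB⟩

theorem good_of_aa (h0 : ℵ₀ ≤ μ) {X : Set P} (h : ∃ l < μ, Aa X l) : Good μ X :=
  ⟨{X}, by rw [mk_singleton]; exact one_lt_aleph0.le.trans h0,
    by rintro _ rfl; exact Or.inl h, fun x hx => ⟨X, rfl, subset_dn X hx⟩⟩

theorem good_of_ty2 (h0 : ℵ₀ ≤ μ) {X : Set P} (h : Ty2 μ X) : Good μ X :=
  ⟨{X}, by rw [mk_singleton]; exact one_lt_aleph0.le.trans h0,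
    by rintro _ rfl; exact Or.inr h, fun x hx => ⟨X, rfl, subset_dn X hx⟩⟩

theorem good_empty : Good μ (∅ : Set P) := ⟨∅, by simp, by simp, by simp⟩

theorem good_of_mk_le (h0 : ℵ₀ ≤ μ) {R : Set P} (h : #R ≤ μ) : Good μ R := by
  have h1 : R = ⋃ r : R, {(r : P)} := by
    ext x
    simp
  rw [h1]
  refine Good.iUnion h0 h fun r => good_of_ty2 h0 ?_
  intro A hA _
  exact ⟨r, rfl, fun a ha => (hA ha).le⟩

theorem Good.of_diff (h0 : ℵ₀ ≤ μ) {X Y : Set P} (h1 : Good μ (X \ Y))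
    (h2 : Good μ Y) : Good μ X :=
  (h1.union h0 h2).mono (fun x hx => by
    by_cases hy : x ∈ Y
    · exact Or.inr hy
    · exact Or.inl ⟨hx, hy⟩)

theorem good_antichain (hμ : μ.IsStrongLimit) (hs : μ.ord.cof < μ)
    (hP : ∀ A : Set P, IsAntichain (· ≤ ·) A → #A < μ)
    (W : μ.ord.cof.ord.ToType → Set P) (hW : ∀ i, ¬ Good μ (W i))
    (hd : ∀ i j, i < j → ∀ x ∈ W i, ∀ y ∈ W j, ¬ x ≤ y) : False := by
  obtain ⟨lam, hlam1, hlam2⟩ := exists_cofinal_seq μ
  have h0 := hμ.aleph0_le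
  obtain ⟨Z, hZ⟩ := exists_rec (I := μ.ord.cof.ord.ToType) (α := Set P)
    (fun i T A => A ⊆ W i \ dn (⋃₀ T) ∧ IsAntichain (· ≤ ·) A ∧ lam i < #A) (by
      intro i f hf
      by_contra hcon
      push Not at hcon
      have h1 : Good μ (W i \ dn (⋃₀ (f '' Iio i))) :=
        good_of_aa h0 ⟨lam i, hlam1 i, hcon⟩
      refine hW i (h1.of_diff h0 (Good.dn (good_of_mk_le h0 ?_)))
      rw [sUnion_image, biUnion_eq_iUnion]
      refine (mk_iUnion_le_sum_mk).trans ?_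
      refine (Cardinal.sum_le_sum _ (fun _ => μ) fun j : Iio i =>
        (hP _ (hf j.1 j.2).2.1).le).trans ?_
      rw [sum_const']
      calc #(Iio i) * μ ≤ μ * μ := by
            gcongr
            exact ((mk_Iio_ord_lt i).trans hs).le
        _ = μ := mul_eq_self h0)
  have hanti : IsAntichain (· ≤ ·) (⋃ i, Z i) := by
    intro x hx y hy hxy hle
    obtain ⟨i, hi⟩ := mem_iUnion.1 hx
    obtain ⟨j, hj⟩ := mem_iUnion.1 hy
    rcases lt_trichotomy i j with h | h | h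
    · exact hd i j h x ((hZ i).1 hi).1 y ((hZ j).1 hj).1 hle
    · subst h
      exact (hZ i).2.1 hi hj hxy hle
    · refine ((hZ i).1 hi).2 ⟨y, ?_, hle⟩
      exact ⟨Z j, ⟨j, h, rfl⟩, hj⟩
  have hlt := hP _ hanti
  obtain ⟨i, hi⟩ := hlam2 _ hlt
  have h2 : #(Z i) ≤ #(⋃ i, Z i : Set P) := mk_le_mk_of_subset (subset_iUnion Z i)
  exact absurd ((hZ i).2.2) (not_lt.2 (h2.trans hi))

/-- The elements of `X` whose cone in `X` is good. -/
def VG (μ : Cardinal.{u}) (X : Set P) : Set P := {x | x ∈ X ∧ Good μ (X ∩ Ici x)}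

theorem good_small_cones (hμ : μ.IsStrongLimit)
    (hP : ∀ A : Set P, IsAntichain (· ≤ ·) A → #A < μ) (X : Set P) : Good μ (VG μ X) := by
  classical
  have h0 := hμ.aleph0_le
  obtain ⟨S, hSV, hS1, hS2⟩ := exists_max_pairwise (fun a b : P => ¬ ∃ z ∈ X, a ≤ z ∧ b ≤ z)
    (VG μ X)
  have hSa : IsAntichain (· ≤ ·) S := by
    intro a ha b hb hab hle
    exact hS1 ha hb hab ⟨b, (hSV hb).1, hle, le_rfl⟩
  have hVc : VG μ X ⊆ ⋃ s : S, dn (X ∩ Ici (s : P)) := by
    intro v hv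
    by_cases hvS : v ∈ S
    · exact mem_iUnion.2 ⟨⟨v, hvS⟩, v, ⟨hv.1, le_rfl⟩, le_rfl⟩
    · obtain ⟨s, hs, hn⟩ := hS2 v hv hvS
      have : ∃ z ∈ X, v ≤ z ∧ s ≤ z := by
        by_contra hc
        refine hn ⟨hc, ?_⟩
        rintro ⟨z, hz, h1, h2⟩
        exact hc ⟨z, hz, h2, h1⟩
      obtain ⟨z, hz, h1, h2⟩ := this
      exact mem_iUnion.2 ⟨⟨s, hs⟩, z, ⟨hz, h2⟩, h1⟩
  exact (Good.iUnion h0 (hP S hSa).le fun s => (hSV s.2).2.dn).mono hVc

section Node

variable {I E : Type u} [LinearOrder I] [WellFoundedLT I]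

/-- One step of the tree. -/
def gstep (V : Set P → Set P) (y : Set P → E → P) (X : Set P) (e : E) : Set P :=
  {p | p ∈ X ∧ p ∉ V X ∧ ¬ y X e ≤ p}

/-- Nodes of the tree. -/
noncomputable def gnode (V : Set P → Set P) (y : Set P → E → P) (s : I → E) : I → Set P :=
  (wellFounded_lt (α := I)).fix (fun α ih =>
    {p | ∀ β, ∀ hβ : β < α, p ∈ gstep V y (ih β hβ) (s β)})

theorem gnode_eq (V : Set P → Set P) (y : Set P → E → P) (s : I → E) (α : I) :
    gnode V y s α = {p | ∀ β < α, p ∈ gstep V y (gnode V y s β) (s β)} := by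
  unfold gnode
  rw [WellFounded.fix_eq]

theorem mem_gnode {V : Set P → Set P} {y : Set P → E → P} {s : I → E} {α : I} {p : P} :
    p ∈ gnode V y s α ↔ ∀ β < α, p ∈ gstep V y (gnode V y s β) (s β) := by
  rw [gnode_eq]
  rfl

theorem gnode_congr (V : Set P → Set P) (y : Set P → E → P) (s t : I → E) (α : I)
    (h : ∀ γ < α, s γ = t γ) : gnode V y s α = gnode V y t α := by
  induction α using WellFoundedLT.induction with
  | _ α ih =>
    ext p
    rw [mem_gnode, mem_gnode]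
    refine forall₂_congr fun β hβ => ?_
    rw [ih β hβ (fun γ hγ => h γ (hγ.trans hβ)), h β hβ]

/-- The path followed by a point. -/
theorem exists_gpath (V : Set P → Set P) (y : Set P → E → P) (c : Set P → E) :
    ∃ s : I → E, ∀ β, s β = c (gnode V y s β) := by
  classical
  let Y : I → Set P := (wellFounded_lt (α := I)).fix (fun α ih =>
    {q | ∀ β, ∀ hβ : β < α, q ∈ gstep V y (ih β hβ) (c (ih β hβ))})
  have hY : ∀ α, Y α = {q | ∀ β < α, q ∈ gstep V y (Y β) (c (Y β))} := by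
    intro α
    change (wellFounded_lt (α := I)).fix _ α = _
    rw [WellFounded.fix_eq]
  refine ⟨fun β => c (Y β), fun β => ?_⟩
  have hnode : ∀ α, gnode V y (fun β => c (Y β)) α = Y α := by
    intro α
    induction α using WellFoundedLT.induction with
    | _ α ih =>
      rw [hY]
      ext q
      rw [mem_gnode]
      simp only [Set.mem_ofPred_eq]
      refine forall₂_congr fun β hβ => ?_
      rw [ih β hβ]
  rw [hnode]

end Node

/-- There are at most `μ` functions from a proper initial segment of the cofinality to `μ`. -/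
theorem mk_fun_le (hμ : μ.IsStrongLimit) (hs : μ.ord.cof < μ) (β : μ.ord.cof.ord.ToType) :
    #(Iio β → μ.ord.ToType) ≤ μ := by
  classical
  have h0 := hμ.aleph0_le
  have h1 : #(μ.ord.cof.ord.ToType × μ.ord.ToType) = μ := by
    rw [mk_prod, lift_id, lift_id, mk_toType, mk_toType, card_ord, card_ord]
    refine le_antisymm ?_ ?_
    · calc μ.ord.cof * μ ≤ μ * μ := by gcongr
        _ = μ := mul_eq_self h0
    · have h2 : 1 ≤ μ.ord.cof := (one_lt_aleph0.trans_le (regular_cof hμ).aleph0_le).le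
      calc μ = 1 * μ := (one_mul μ).symm
        _ ≤ μ.ord.cof * μ := by gcongr
  have h2 : IsStrongPrelimit #(μ.ord.cof.ord.ToType × μ.ord.ToType) := by
    rw [h1]
    exact hμ.isStrongPrelimit
  have h3 := mk_subset_mk_lt_cof h2
  rw [h1] at h3
  refine le_trans ?_ h3.le
  refine mk_le_of_injective (f := fun g : Iio β → μ.ord.ToType =>
    (⟨range (fun x : Iio β => ((x : μ.ord.cof.ord.ToType), g x)), ?_⟩ :
      {s : Set (μ.ord.cof.ord.ToType × μ.ord.ToType) // #s < μ.ord.cof})) ?_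
  · exact mk_range_le.trans_lt (mk_Iio_ord_lt β)
  · intro g g' hgg
    have h4 : range (fun x : Iio β => ((x : μ.ord.cof.ord.ToType), g x)) =
        range (fun x : Iio β => ((x : μ.ord.cof.ord.ToType), g' x)) := congrArg Subtype.val hgg
    funext x
    have h5 : ((x : μ.ord.cof.ord.ToType), g x) ∈
        range (fun x : Iio β => ((x : μ.ord.cof.ord.ToType), g' x)) := by
      rw [← h4]
      exact ⟨x, rfl⟩
    obtain ⟨z, hz⟩ := h5
    simp only [Prod.mk.injEq] at hz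
    have h6 : z = x := Subtype.ext hz.1
    rw [← hz.2, h6]

/-- The decomposition theorem. -/
theorem good_univ (hμ : μ.IsStrongLimit) (hs : μ.ord.cof < μ)
    (hP : ∀ A : Set P, IsAntichain (· ≤ ·) A → #A < μ) : Good μ (univ : Set P) := by
  classical
  by_contra hbig
  have h0 := hμ.aleph0_le
  have hV : ∀ X : Set P, Good μ (VG μ X) := good_small_cones hμ hP
  have hne : Nonempty P := by
    by_contra hne
    rw [not_nonempty_iff] at hne
    exact hbig (good_empty.mono fun x => (hne.false x).elim)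
  -- the unbounded families
  have hy : ∀ X : Set P, ∃ y : μ.ord.ToType → P, ¬ Good μ X →
      (∀ e, y e ∈ X ∧ y e ∉ VG μ X) ∧ ∀ z ∈ X, z ∉ VG μ X → ∃ e, ¬ y e ≤ z := by
    intro X
    by_cases hX : Good μ X
    · exact ⟨fun _ => Classical.arbitrary P, fun h => absurd hX h⟩
    · have h1 : ¬ Good μ (X \ VG μ X) := fun h => hX (h.of_diff h0 (hV X))
      have h2 : ¬ Ty2 μ (X \ VG μ X) := fun h => h1 (good_of_ty2 h0 h)
      unfold Ty2 at h2
      push Not at h2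
      obtain ⟨A, hAX, hAμ, hA⟩ := h2
      have hAne : A.Nonempty := by
        by_contra hAe
        rw [not_nonempty_iff_eq_empty] at hAe
        have h3 : (X \ VG μ X).Nonempty := by
          by_contra h4
          rw [not_nonempty_iff_eq_empty] at h4
          rw [h4] at h1
          exact h1 good_empty
        obtain ⟨z, hz⟩ := h3
        obtain ⟨a, ha, -⟩ := hA z hz
        rw [hAe] at ha
        exact ha
      have : Nonempty A := hAne.to_subtype
      obtain ⟨g, hg⟩ := exists_surj_of_mk_le (α := A) (β := μ.ord.ToType)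
        (by rwa [mk_toType, card_ord])
      refine ⟨fun e => (g e : P), fun _ => ⟨fun e => ⟨(hAX (g e).2).1, (hAX (g e).2).2⟩, ?_⟩⟩
      intro z hz hzV
      obtain ⟨a, ha, haz⟩ := hA z ⟨hz, hzV⟩
      obtain ⟨e, he⟩ := hg ⟨a, ha⟩
      refine ⟨e, ?_⟩
      simp only [he]
      exact haz
  choose y hy using hy
  have hE : Nonempty μ.ord.ToType := by
    rw [← mk_ne_zero_iff, mk_toType, card_ord]
    exact (aleph0_pos.trans_le h0).ne'
  set N : (μ.ord.cof.ord.ToType → μ.ord.ToType) → μ.ord.cof.ord.ToType → Set P :=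
    gnode (VG μ) y with hN
  -- all the small parts together are good
  set U : Set P := ⋃ γ : μ.ord.cof.ord.ToType, ⋃ τ : Iio γ → μ.ord.ToType,
    VG μ (N (fun δ => if h : δ < γ then τ ⟨δ, h⟩ else Classical.arbitrary _) γ) with hU
  have hUg : Good μ U := by
    refine Good.iUnion h0 ?_ fun γ => Good.iUnion h0 (mk_fun_le hμ hs γ) fun τ => hV _
    rw [mk_toType, card_ord]
    exact hs.le
  have hVU : ∀ s γ, VG μ (N s γ) ⊆ U := by
    intro s γ
    have hext : N (fun δ => if h : δ < γ then (fun ε : Iio γ => s ε.1) ⟨δ, h⟩ else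
        Classical.arbitrary _) γ = N s γ := by
      refine gnode_congr _ y _ _ γ fun δ hδ => ?_
      simp [hδ]
    intro x hx
    refine mem_iUnion.2 ⟨γ, mem_iUnion.2 ⟨fun ε => s ε.1, ?_⟩⟩
    rw [hext]
    exact hx
  obtain ⟨p, hp⟩ : ∃ p, p ∉ U := by
    by_contra hcon
    push Not at hcon
    exact hbig (hUg.mono fun x _ => hcon x)
  -- the path of `p`
  have hc : ∀ X : Set P, ∃ e, ¬ Good μ X → p ∈ X → p ∉ VG μ X → ¬ y X e ≤ p := by
    intro X
    by_cases hX : ¬ Good μ X ∧ p ∈ X ∧ p ∉ VG μ X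
    · obtain ⟨e, he⟩ := (hy X hX.1).2 p hX.2.1 hX.2.2
      exact ⟨e, fun _ _ _ => he⟩
    · exact ⟨Classical.arbitrary _, fun h1 h2 h3 => absurd ⟨h1, h2, h3⟩ hX⟩
  choose c hc using hc
  obtain ⟨s, hsp⟩ := exists_gpath (I := μ.ord.cof.ord.ToType) (VG μ) y c
  have hpN : ∀ α, p ∈ N s α := by
    intro α
    induction α using WellFoundedLT.induction with
    | _ α ih =>
      rw [hN, mem_gnode]
      intro β hβ
      have h1 : p ∈ N s β := ih β hβ
      have h2 : p ∉ VG μ (N s β) := fun h => hp (hVU s β h)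
      have h3 : ¬ Good μ (N s β) := fun h => h2 ⟨h1, h.mono inter_subset_left⟩
      refine ⟨h1, h2, ?_⟩
      rw [hsp β]
      exact hc _ h3 h1 h2
  have hbigN : ∀ α, ¬ Good μ (N s α) := by
    intro α h
    exact hp (hVU s α ⟨hpN α, h.mono inter_subset_left⟩)
  refine good_antichain hμ hs hP
    (fun α => {x | x ∈ N s α ∧ x ∉ VG μ (N s α) ∧ y (N s α) (s α) ≤ x}) ?_ ?_
  · intro α hsm
    obtain ⟨hy1, hy2⟩ := hy _ (hbigN α)
    have h1 := hy1 (s α)
    refine h1.2 ⟨h1.1, (hsm.union h0 (hV (N s α))).mono ?_⟩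
    rintro x ⟨hx1, hx2⟩
    by_cases hxV : x ∈ VG μ (N s α)
    · exact Or.inr hxV
    · exact Or.inl ⟨hx1, hxV, hx2⟩
  · rintro α β hαβ x ⟨_, _, hx⟩ z ⟨hz, _, _⟩ hxz
    rw [hN, mem_gnode] at hz
    exact (hz α hαβ).2.2 (hx.trans hxz)

end Pool.Agent.MPcfac02
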