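import Mathlib
import Pool.Agent.Lib.MP_cfac02_lc.Setup

namespace Pool.Agent.MPcfac02

open Cardinal Set Order

universe u

theorem Cov.of_subtype {P : Type u} [PartialOrder P] {X : Set P} {c : Cardinal.{u}}
    (h : Cov (Set.univ : Set X) c) : Cov X c := by
  obtain ⟨𝓘, h1, h2, h3⟩ := h
  have h4 : ∀ I : 𝓘, Cov ((fun x : X => (x : P)) '' I.1) 1 := by
    intro I
    refine cov_of_directed ?_
    rintro _ ⟨a, ha, rfl⟩ _ ⟨b, hb, rfl⟩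
    obtain ⟨z, hz, haz, hbz⟩ := (h2 I.1 I.2).Directed a ha b hb
    exact ⟨z, ⟨z, hz, rfl⟩, haz, hbz⟩
  have h5 := Cov.iUnion h4
  rw [mul_one] at h5
  refine h5.mono ?_ h1
  intro x hx
  obtain ⟨I, hI, hxI⟩ := h3 (mem_univ (⟨x, hx⟩ : X))
  exact mem_iUnion.2 ⟨⟨I, hI⟩, ⟨x, hx⟩, hxI, rfl⟩

/-- Posets all of whose antichains have size less than `μ`. -/
def AC (μ : Cardinal.{u}) (P : Type u) [PartialOrder P] : Prop :=
  ∀ A : Set P, IsAntichain (· ≤ ·) A → #A < μ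

theorem AC.subtype {μ : Cardinal.{u}} {P : Type u} [PartialOrder P] (h : AC μ P) (X : Set P) :
    AC μ X := by
  intro A hA
  have h1 : IsAntichain (· ≤ ·) ((fun x : X => (x : P)) '' A) := by
    rintro _ ⟨a, ha, rfl⟩ _ ⟨b, hb, rfl⟩ hab hle
    exact hA ha hb (fun h => hab (by rw [h])) hle
  have h2 := h _ h1
  rwa [mk_image_eq Subtype.val_injective] at h2

/-- Elements incomparable to all elements of `A`. -/
def QQ {P : Type u} [PartialOrder P] (A : Set P) : Set P := {y | ∀ a ∈ A, ¬ a ≤ y ∧ ¬ y ≤ a}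

theorem reflect_aux {μ : Cardinal.{u}} (h0 : ℵ₀ ≤ μ) {P : Type u} [PartialOrder P] (hP : AC μ P)
    (hyp : ∀ M : Set P, #M ≤ 2 ^ μ → Sm μ M)
    (hcone : ∀ p : P, ∀ S : Set P, #S ≤ 2 ^ μ → ∃ x, p ≤ x ∧ x ∉ dn S) :
    Sm μ (Set.univ : Set P) := by
  classical
  have h2μ : ℵ₀ ≤ (2 : Cardinal.{u}) ^ μ := h0.trans (cantor μ).le
  have hpow : ((2 : Cardinal.{u}) ^ μ) ^ μ = 2 ^ μ := by
    rw [← power_mul, mul_eq_self h0]
  rcases isEmpty_or_nonempty P with hPe | hPe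
  · refine ⟨0, aleph0_pos.trans_le h0, (cov_empty 0).mono ?_ le_rfl⟩
    intro x
    exact (hPe.false x).elim
  -- witnesses for non-directedness
  have hF : ∀ A : Set P, ∃ S : Set P, #S ≤ 2 ^ μ ∧ (¬ DirectedOn (· ≤ ·) (QQ A) →
      ∃ y1 ∈ S, ∃ y2 ∈ S, y1 ∈ QQ A ∧ y2 ∈ QQ A ∧ ∀ z ∈ QQ A, ¬ (y1 ≤ z ∧ y2 ≤ z)) := by
    intro A
    by_cases hd : DirectedOn (· ≤ ·) (QQ A)
    · exact ⟨∅, by simp, fun h => absurd hd h⟩
    · have hd' := hd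
      unfold DirectedOn at hd'
      push Not at hd'
      obtain ⟨y1, hy1, y2, hy2, hz⟩ := hd'
      refine ⟨{y1, y2}, ?_, fun _ => ⟨y1, by simp, y2, by simp, hy1, hy2, ?_⟩⟩
      · have hfin : ({y1, y2} : Set P).Finite := by simp
        have h1 := hfin.lt_aleph0
        exact h1.le.trans h2μ
      · intro z hz' hzz
        exact hz z hz' hzz.1 hzz.2
  choose F hF1 hF2 using hF
  -- missed points
  have hG : ∀ 𝓑 : Set (Set P), ∃ p : P, (∃ q : P, ∀ B ∈ 𝓑, q ∉ dn (QQ B)) →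
      ∀ B ∈ 𝓑, p ∉ dn (QQ B) := by
    intro 𝓑
    by_cases h : ∃ q : P, ∀ B ∈ 𝓑, q ∉ dn (QQ B)
    · obtain ⟨q, hq⟩ := h
      exact ⟨q, fun _ => hq⟩
    · exact ⟨Classical.arbitrary P, fun h' => absurd h' h⟩
  choose pt hpt using hG
  obtain ⟨M, -, hM1, hM2⟩ := exists_closed (2 ^ μ) μ h2μ hpow.le (∅ : Set P) (by simp)
    (fun A => F A ∪ pt '' {𝓑 : Set (Set P) | 𝓑 ⊆ 𝒫 A ∧ #𝓑 ≤ μ}) (by
      intro A hA
      refine (mk_union_le _ _).trans ?_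
      have h1 : #(pt '' {𝓑 : Set (Set P) | 𝓑 ⊆ 𝒫 A ∧ #𝓑 ≤ μ}) ≤ 2 ^ μ := by
        refine mk_image_le.trans ?_
        refine (mk_bounded_subset_le (𝒫 A) μ).trans ?_
        have h2 : max #(𝒫 A) ℵ₀ ≤ 2 ^ μ := by
          refine max_le ?_ h2μ
          rw [mk_powerset]
          exact power_le_power_left two_ne_zero hA
        exact (power_le_power_right h2).trans hpow.le
      exact (add_le_add (hF1 A) h1).trans (add_eq_self h2μ).le)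
  choose x hx1 hx2 using fun m : M => hcone m M hM1
  obtain ⟨c, hc, 𝓘, h1, h2, h3⟩ := hyp (M ∪ range x) (by
    refine (mk_union_le _ _).trans ?_
    exact (add_le_add hM1 (mk_range_le.trans hM1)).trans (add_eq_self h2μ).le)
  set 𝓘' : Set (Set P) := {I | I ∈ 𝓘 ∧ ∃ x ∈ I, x ∉ dn M} with h𝓘'
  have hI'c : #𝓘' ≤ c := (mk_le_mk_of_subset fun I hI => hI.1).trans h1
  -- maximal antichains
  have hB : ∀ I : Set P, ∃ B ⊆ M \ I, IsAntichain (· ≤ ·) B ∧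
      ∀ m ∈ M, m ∉ I → m ∉ QQ B := by
    intro I
    obtain ⟨B, hB1, hB2, hB3⟩ := exists_max_pairwise (fun a b : P => ¬ a ≤ b) (M \ I)
    refine ⟨B, hB1, hB2, fun m hm hmI hmQ => ?_⟩
    by_cases hmB : m ∈ B
    · exact (hmQ m hmB).1 le_rfl
    · obtain ⟨b, hb, hn⟩ := hB3 m ⟨hm, hmI⟩ hmB
      exact hn ⟨(hmQ b hb).2, (hmQ b hb).1⟩
  choose B hB1 hB2 hB3 using hB
  have ha : ∀ I ∈ 𝓘', ∀ y ∈ I, y ∉ dn M → y ∈ QQ (B I) := by
    intro I hI y hy hyM b hb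
    refine ⟨fun hby => (hB1 I hb).2 ((h2 I hI.1).IsLowerSet hby hy), fun hyb => hyM ?_⟩
    exact ⟨b, (hB1 I hb).1, hyb⟩
  have hBμ : ∀ I, #(B I) ≤ μ := fun I => (hP _ (hB2 I)).le
  have hc' : ∀ I ∈ 𝓘', DirectedOn (· ≤ ·) (QQ (B I)) := by
    intro I hI
    by_contra hd
    obtain ⟨y1, hy1, y2, hy2, hyQ1, hyQ2, hz⟩ := hF2 _ hd
    have hsub := hM2 (B I) (fun b hb => (hB1 I hb).1) (hBμ I)
    have hy1M : y1 ∈ M := hsub (Or.inl hy1)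
    have hy2M : y2 ∈ M := hsub (Or.inl hy2)
    have hy1I : y1 ∈ I := by
      by_contra hc
      exact hB3 I y1 hy1M hc hyQ1
    have hy2I : y2 ∈ I := by
      by_contra hc
      exact hB3 I y2 hy2M hc hyQ2
    obtain ⟨w, hwI, hwM⟩ := hI.2
    obtain ⟨z1, hz1, h4, h5⟩ := (h2 I hI.1).Directed _ hy1I _ hy2I
    obtain ⟨z2, hz2, h6, h7⟩ := (h2 I hI.1).Directed _ hz1 _ hwI
    refine hz z2 (ha I hI z2 hz2 ?_) ⟨h4.trans h6, h5.trans h6⟩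
    rintro ⟨m, hm, hzm⟩
    exact hwM ⟨m, hm, h7.trans hzm⟩
  have hd : ∀ I ∈ 𝓘', I ⊆ dn (QQ (B I)) := by
    intro I hI y hy
    obtain ⟨w, hwI, hwM⟩ := hI.2
    obtain ⟨z, hz, h6, h7⟩ := (h2 I hI.1).Directed _ hy _ hwI
    refine ⟨z, ha I hI z hz ?_, h6⟩
    rintro ⟨m, hm, hzm⟩
    exact hwM ⟨m, hm, h7.trans hzm⟩
  have hMI : ∀ m ∈ M, ∃ I ∈ 𝓘', m ∈ I := by
    intro m hm
    obtain ⟨I, hI, hxI⟩ := h3 (Or.inr (mem_range_self (⟨m, hm⟩ : M)))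
    exact ⟨I, ⟨hI, _, hxI, hx2 ⟨m, hm⟩⟩, (h2 I hI).IsLowerSet (hx1 ⟨m, hm⟩) hxI⟩
  have hcovP : ∀ p : P, ∃ I ∈ 𝓘', p ∈ dn (QQ (B I)) := by
    by_contra hcon
    push Not at hcon
    obtain ⟨q, hq⟩ := hcon
    set 𝓑 : Set (Set P) := B '' 𝓘' with h𝓑
    have hptB := hpt 𝓑 ⟨q, by rintro _ ⟨I, hI, rfl⟩; exact hq I hI⟩
    set A : Set P := ⋃ I : 𝓘', B I with hA
    have hAM : A ⊆ M := by
      rw [hA]
      exact iUnion_subset fun I b hb => (hB1 I hb).1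
    have hAμ : #A ≤ μ := by
      refine (mk_iUnion_le_sum_mk).trans ?_
      refine (Cardinal.sum_le_sum _ (fun _ : 𝓘' => μ) fun I => hBμ I.1).trans ?_
      rw [sum_const']
      calc #𝓘' * μ ≤ μ * μ := by
            gcongr
            exact hI'c.trans hc.le
        _ = μ := mul_eq_self h0
    have hptM : pt 𝓑 ∈ M := by
      refine hM2 A hAM hAμ (Or.inr ⟨𝓑, ⟨?_, ?_⟩, rfl⟩)
      · rintro _ ⟨I, hI, rfl⟩
        exact subset_iUnion (fun I : 𝓘' => B I) ⟨I, hI⟩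
      · exact mk_image_le.trans (hI'c.trans hc.le)
    obtain ⟨I, hI, hpI⟩ := hMI _ hptM
    exact hptB (B I) ⟨I, hI, rfl⟩ (hd I hI hpI)
  refine ⟨c, hc, ?_⟩
  have h5 : Cov (⋃ I : 𝓘', dn (QQ (B I.1))) (#𝓘' * 1) :=
    Cov.iUnion fun I => (cov_of_directed (hc' I.1 I.2)).dn
  rw [mul_one] at h5
  refine h5.mono (fun p _ => ?_) hI'c
  obtain ⟨I, hI, hp⟩ := hcovP p
  exact mem_iUnion.2 ⟨⟨I, hI⟩, hp⟩

/-- Reflection to posets of size at most `2 ^ μ`. -/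
theorem reflect {μ : Cardinal.{u}} (h0 : ℵ₀ ≤ μ)
    (hyp : ∀ (Q : Type u) [PartialOrder Q], AC μ Q → #Q ≤ 2 ^ μ → Sm μ (Set.univ : Set Q))
    {P : Type u} [PartialOrder P] (hP : AC μ P) : Sm μ (Set.univ : Set P) := by
  classical
  have h2μ : ℵ₀ ≤ (2 : Cardinal.{u}) ^ μ := h0.trans (cantor μ).le
  -- elements whose cone has small cofinality
  set U : Set P := {p | ∃ S : Set P, #S ≤ 2 ^ μ ∧ ∀ x, p ≤ x → x ∈ dn S} with hU
  have hsub : ∀ X : Set P, #X ≤ 2 ^ μ → Sm μ X := by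
    intro X hX
    obtain ⟨c, hc, h⟩ := hyp X (hP.subtype X) hX
    exact ⟨c, hc, h.of_subtype⟩
  have hUs : Sm μ U := by
    obtain ⟨A, hAU, hA1, hA2⟩ := exists_max_pairwise (fun a b : P => ¬ ∃ z, a ≤ z ∧ b ≤ z) U
    have hAa : IsAntichain (· ≤ ·) A := by
      intro a ha b hb hab hle
      exact hA1 ha hb hab ⟨b, hle, le_rfl⟩
    choose S hS1 hS2 using fun a : A => hAU a.2
    obtain ⟨c, hc, h⟩ := hsub (⋃ a : A, S a) (by
      refine (mk_iUnion_le_sum_mk).trans ?_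
      refine (Cardinal.sum_le_sum _ (fun _ => 2 ^ μ) fun a => hS1 a).trans ?_
      rw [sum_const']
      calc #A * 2 ^ μ ≤ 2 ^ μ * 2 ^ μ := by
            gcongr
            exact (hP A hAa).le.trans (cantor μ).le
        _ = 2 ^ μ := mul_eq_self h2μ)
    refine ⟨c, hc, h.dn.mono ?_ le_rfl⟩
    intro p hp
    have : ∃ a : A, ∃ z, p ≤ z ∧ (a : P) ≤ z := by
      by_cases hpA : p ∈ A
      · exact ⟨⟨p, hpA⟩, p, le_rfl, le_rfl⟩
      · obtain ⟨a, ha, hn⟩ := hA2 p hp hpA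
        by_contra hc
        push Not at hc
        refine hn ⟨?_, ?_⟩
        · rintro ⟨z, hz1, hz2⟩
          exact hc ⟨a, ha⟩ z hz1 hz2
        · rintro ⟨z, hz1, hz2⟩
          exact hc ⟨a, ha⟩ z hz2 hz1
    obtain ⟨a, z, hpz, haz⟩ := this
    obtain ⟨s, hs, hzs⟩ := hS2 a z haz
    exact ⟨s, mem_iUnion.2 ⟨a, hs⟩, hpz.trans hzs⟩
  obtain ⟨c, hc, hcU⟩ := hUs
  set X : Set P := {p | p ∉ dn U} with hX
  have hXs : Sm μ (Set.univ : Set X) := by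
    refine reflect_aux h0 (hP.subtype X) ?_ ?_
    · intro M hM
      obtain ⟨d, hd, h⟩ := hyp M ((hP.subtype X).subtype M) hM
      exact ⟨d, hd, h.of_subtype⟩
    · intro p S hS
      by_contra hcon
      push Not at hcon
      refine p.2 ⟨p, ⟨(fun x : X => (x : P)) '' S, ?_, fun x hpx => ?_⟩, le_rfl⟩
      · exact mk_image_le.trans hS
      · have hxX : x ∈ X := by
          rintro ⟨u, hu, hxu⟩
          exact p.2 ⟨u, hu, hpx.trans hxu⟩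
        obtain ⟨s, hs, hxs⟩ := hcon ⟨x, hxX⟩ hpx
        exact ⟨s, ⟨s, hs, rfl⟩, hxs⟩
  obtain ⟨d, hd, hdX⟩ := hXs
  refine ⟨c + d, add_lt_of_lt h0 hc hd, (hcU.dn.union hdX.of_subtype).mono ?_ le_rfl⟩
  intro p _
  by_cases hp : p ∈ dn U
  · exact Or.inl hp
  · exact Or.inr hp

end Pool.Agent.MPcfac02
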