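import Mathlib
import Pool.Agent.Lib.MP_cfac02_lc.Bounded
import Pool.Agent.Lib.MP_cfac02_lc.Decomp
import Pool.Agent.Lib.MP_cfac02_lc.Uniform
import Pool.Agent.Lib.MP_cfac02_lc.Reflect

namespace Pool.Agent.MPcfac02

open Cardinal Set Order

universe u

variable {P : Type u} [PartialOrder P] {μ : Cardinal.{u}}

/-- At most `μ` many `μ⁺`-directed sets are covered by fewer than `μ` ideals. -/
theorem sm_ty2 (hμ : μ.IsStrongLimit) (hs : μ.ord.cof < μ)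
    (hP : ∀ A : Set P, IsAntichain (· ≤ ·) A → #A < μ) (𝓑 : Set (Set P)) (h𝓑 : #𝓑 ≤ μ)
    (hT : ∀ B ∈ 𝓑, Ty2 μ B) : Sm μ {x : P | ∃ B ∈ 𝓑, x ∈ dn B} := by
  classical
  set 𝓓 : Set (Set P) := dn '' 𝓑 with h𝓓
  have h𝓓μ : #𝓓 ≤ μ := mk_image_le.trans h𝓑
  have hx : ∀ I : 𝓓, ∃ x : P, x ∈ I.1 ∧ ∀ J : 𝓓, ¬ I.1 ⊆ J.1 → x ∉ J.1 := by
    rintro ⟨_, B, hB, rfl⟩
    obtain ⟨z0, hz0, -⟩ := hT B hB ∅ (empty_subset _) (by simp)
    have hw : ∀ J : 𝓓, ∃ w ∈ B, ¬ dn B ⊆ J.1 → w ∉ J.1 := by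
      rintro ⟨_, C, hC, rfl⟩
      by_cases h : dn B ⊆ dn C
      · exact ⟨z0, hz0, fun h' => absurd h h'⟩
      · rw [not_subset] at h
        obtain ⟨z, ⟨w, hw, hzw⟩, hz⟩ := h
        refine ⟨w, hw, fun _ => ?_⟩
        rintro ⟨r, hr, hwr⟩
        exact hz ⟨r, hr, hzw.trans hwr⟩
    choose w hw1 hw2 using hw
    obtain ⟨x, hxB, hx⟩ := hT B hB (range w) (by rintro _ ⟨J, rfl⟩; exact hw1 J)
      (mk_range_le.trans h𝓓μ)
    refine ⟨x, subset_dn B hxB, ?_⟩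
    rintro ⟨_, C, hC, rfl⟩ hJ
    have h1 := hw2 ⟨_, C, hC, rfl⟩ hJ
    rintro ⟨r, hr, hxr⟩
    exact h1 ⟨r, hr, (hx _ (mem_range_self _)).trans hxr⟩
  choose f hf1 hf2 using hx
  have hdown : ∀ I : 𝓓, ∀ x ∈ I.1, ∀ y, y ≤ x → y ∈ I.1 := by
    rintro ⟨_, B, hB, rfl⟩ x ⟨r, hr, hxr⟩ y hyx
    exact ⟨r, hr, hyx.trans hxr⟩
  have hdir : ∀ I : 𝓓, DirectedOn (· ≤ ·) I.1 := by
    rintro ⟨_, B, hB, rfl⟩ x ⟨r, hr, hxr⟩ y ⟨s, hs, hys⟩
    obtain ⟨z, hz, hz'⟩ := hT B hB {r, s} (by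
      rintro t (rfl | rfl)
      · exact hr
      · exact hs) (by
        have hfin : ({r, s} : Set P).Finite := by simp
        exact hfin.lt_aleph0.le.trans hμ.aleph0_le)
    exact ⟨z, subset_dn B hz, hxr.trans (hz' r (by simp)), hys.trans (hz' s (by simp))⟩
  have hrefl : ∀ I J : 𝓓, f I ≤ f J → I ≤ J := by
    intro I J hIJ
    by_contra hc
    exact hf2 I J hc (hdown J _ (hf1 J) _ hIJ)
  have hinj : Function.Injective f := by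
    intro I J hIJ
    exact le_antisymm (hrefl I J hIJ.le) (hrefl J I hIJ.ge)
  have hPD : ∀ A : Set 𝓓, IsAntichain (· ≤ ·) A → #A < μ := by
    intro A hA
    rw [← mk_image_eq hinj]
    refine hP _ ?_
    rintro _ ⟨a, ha, rfl⟩ _ ⟨b, hb, rfl⟩ hab hle
    exact hA ha hb (fun h => hab (by rw [h])) (hrefl a b hle)
  obtain ⟨t, htμ, ht0, ht⟩ := uniform hμ hs hPD
  obtain ⟨𝓘, h1, h2, h3⟩ := (ht Set.univ (by rw [mk_univ]; exact h𝓓μ)).cov ht0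
  refine ⟨2 ^ t, hμ.isStrongPrelimit htμ, ?_⟩
  have h4 : ∀ J : 𝓘, Cov (⋃ I ∈ J.1, (I : Set P)) 1 := by
    intro J
    refine cov_of_directed ?_
    intro x hx y hy
    simp only [mem_iUnion] at hx hy
    obtain ⟨I, hI, hxI⟩ := hx
    obtain ⟨I', hI', hyI'⟩ := hy
    obtain ⟨K, hK, hIK, hIK'⟩ := (h2 J.1 J.2).Directed I hI I' hI'
    obtain ⟨z, hz, hxz, hyz⟩ := hdir K x (hIK hxI) y (hIK' hyI')
    refine ⟨z, ?_, hxz, hyz⟩
    simp only [mem_iUnion]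
    exact ⟨K, hK, hz⟩
  have h5 := Cov.iUnion h4
  rw [mul_one] at h5
  refine h5.mono ?_ h1
  rintro x ⟨B, hB, hxB⟩
  obtain ⟨J, hJ, hBJ⟩ := h3 (mem_univ (⟨dn B, B, hB, rfl⟩ : 𝓓))
  refine mem_iUnion.2 ⟨⟨J, hJ⟩, ?_⟩
  simp only [mem_iUnion]
  exact ⟨_, hBJ, hxB⟩

/-- At most `μ` many sets with bounded antichains are covered by fewer than `μ` ideals. -/
theorem sm_ty1 (hμ : μ.IsStrongLimit) (hs : μ.ord.cof < μ)
    (hwf : WellFounded ((· < ·) : P → P → Prop))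
    (hP : ∀ A : Set P, IsAntichain (· ≤ ·) A → #A < μ) (𝓑 : Set (Set P)) (h𝓑 : #𝓑 ≤ μ)
    (hT : ∀ B ∈ 𝓑, ∃ l < μ, Aa B l) : Sm μ {x : P | ∃ B ∈ 𝓑, x ∈ dn B} := by
  classical
  have h0 := aleph0_lt hμ hs
  obtain ⟨σ, hσμ, hσ⟩ := bounded_uniform hμ hs hwf hP
  obtain ⟨lam, hlam1, hlam2⟩ := exists_cofinal_seq μ
  obtain ⟨Y, hY1, hY2⟩ := exists_small_pieces hμ 𝓑 h𝓑
  set X : μ.ord.cof.ord.ToType → μ.ord.cof.ord.ToType → Set P := fun i j =>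
    ⋃ B : {B : Set P // B ∈ Y i ∧ Aa B (lam j)}, B.1 with hX
  have hXc : ∀ i j, Cov (X i j) σ := by
    intro i j
    refine hσ _ ⟨max ℵ₀ (max #(Y i) (lam j)), max_lt h0 (max_lt (hY1 i) (hlam1 j)), ?_⟩
    refine Aa.iUnion (le_max_left _ _) ?_ ?_
    · refine le_trans ?_ ((le_max_left _ _).trans (le_max_right _ _))
      exact mk_le_mk_of_subset (s := {B : Set P | B ∈ Y i ∧ Aa B (lam j)}) fun B hB => hB.1
    · intro B
      exact B.2.2.mono le_rfl ((le_max_right _ _).trans (le_max_right _ _))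
  refine ⟨μ.ord.cof * (μ.ord.cof * σ), ?_, ?_⟩
  · exact mul_lt_of_lt h0.le hs (mul_lt_of_lt h0.le hs hσμ)
  · have h1 : Cov (⋃ i, ⋃ j, dn (X i j)) (μ.ord.cof * (μ.ord.cof * σ)) := by
      have h2 := Cov.iUnion (X := fun i => ⋃ j, dn (X i j)) (c := μ.ord.cof * σ) (fun i => by
        have h3 := Cov.iUnion (X := fun j => dn (X i j)) (c := σ) fun j => (hXc i j).dn
        rwa [mk_toType, card_ord] at h3)
      rwa [mk_toType, card_ord] at h2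
    refine h1.mono ?_ le_rfl
    rintro x ⟨B, hB, hxB⟩
    obtain ⟨i, hi⟩ := mem_iUnion.1 (hY2 hB)
    obtain ⟨l, hl, hBl⟩ := hT B hB
    obtain ⟨j, hj⟩ := hlam2 l hl
    refine mem_iUnion.2 ⟨i, mem_iUnion.2 ⟨j, ?_⟩⟩
    refine dn_mono ?_ hxB
    intro y hy
    exact mem_iUnion.2 ⟨⟨B, hi, hBl.mono le_rfl hj⟩, hy⟩

theorem sm_univ_of_wf (hμ : μ.IsStrongLimit) (hs : μ.ord.cof < μ)
    (hwf : WellFounded ((· < ·) : P → P → Prop))
    (hP : ∀ A : Set P, IsAntichain (· ≤ ·) A → #A < μ) : Sm μ (Set.univ : Set P) := by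
  classical
  obtain ⟨𝓑, h1, h2, h3⟩ := good_univ hμ hs hP
  have h4 := sm_ty1 hμ hs hwf hP {B | B ∈ 𝓑 ∧ ∃ l < μ, Aa B l}
    ((mk_le_mk_of_subset fun B hB => hB.1).trans h1) (fun B hB => hB.2)
  have h5 := sm_ty2 hμ hs hP {B | B ∈ 𝓑 ∧ Ty2 μ B}
    ((mk_le_mk_of_subset fun B hB => hB.1).trans h1) (fun B hB => hB.2)
  refine (h4.union hμ h5).mono fun x hx => ?_
  obtain ⟨B, hB, hxB⟩ := h3 x hx
  rcases h2 B hB with h | h
  · exact Or.inl ⟨B, ⟨hB, h⟩, hxB⟩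
  · exact Or.inr ⟨B, ⟨hB, h⟩, hxB⟩

/-- Every poset has a cofinal subset on which the strict order is well-founded. -/
theorem exists_cofinal_wf (P : Type u) [PartialOrder P] :
    ∃ C : Set P, (∀ p, ∃ x ∈ C, p ≤ x) ∧ WellFounded ((· < ·) : C → C → Prop) := by
  have hwf : WellFounded (WellOrderingRel : P → P → Prop) :=
    (inferInstance : IsWellFounded P WellOrderingRel).wf
  refine ⟨{x | ∀ y, WellOrderingRel y x → ¬ x ≤ y}, fun p => ?_, ?_⟩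
  · obtain ⟨x, hx, hmin⟩ := hwf.has_min {x | p ≤ x} ⟨p, le_rfl⟩
    exact ⟨x, fun y hyx hxy => hmin y (le_trans hx hxy) hyx, hx⟩
  · refine Subrelation.wf (r := InvImage WellOrderingRel (Subtype.val)) ?_
      (InvImage.wf Subtype.val hwf)
    intro x y hxy
    rcases trichotomous_of (WellOrderingRel : P → P → Prop) x.1 y.1 with h | h | h
    · exact h
    · exact absurd (Subtype.ext h) hxy.ne
    · exact absurd hxy.le (x.2 y.1 h)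

theorem sm_univ_all (hμ : μ.IsStrongLimit) (hs : μ.ord.cof < μ)
    (hP : ∀ A : Set P, IsAntichain (· ≤ ·) A → #A < μ) : Sm μ (Set.univ : Set P) := by
  obtain ⟨C, hC1, hC2⟩ := exists_cofinal_wf P
  have h1 : AC μ C := AC.subtype hP C
  obtain ⟨c, hc, h2⟩ := sm_univ_of_wf hμ hs hC2 h1
  refine ⟨c, hc, h2.of_subtype.dn.mono ?_ le_rfl⟩
  intro p _
  obtain ⟨x, hx, hpx⟩ := hC1 p
  exact ⟨x, hx, hpx⟩

end Pool.Agent.MPcfac02
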