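import Mathlib
import Pool.Agent.Lib.MP_cfac02_lc.Setup

namespace Pool.Agent.MPcfac02

open Cardinal Set Order

universe u

/-- The Ramsey relation for pairs and two colours. -/
def Arrows (κ : Cardinal.{u}) : Prop :=
  ∀ f : κ.ord.ToType → κ.ord.ToType → Bool,
    ∃ H : Set κ.ord.ToType, #H = κ ∧ ∃ c : Bool, ∀ a ∈ H, ∀ b ∈ H, a < b → f a b = c

variable {κ : Cardinal.{u}}

theorem unbounded_of_mk (hκ : κ.IsRegular) {H : Set κ.ord.ToType} (hH : #H = κ)
    (i : κ.ord.ToType) : ∃ j ∈ H, i < j := by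
  by_contra hcon
  push Not at hcon
  obtain ⟨k, hk⟩ := exists_ub hκ {i} (by rw [mk_singleton]; exact one_lt_aleph0.trans_le hκ.1)
  have hik : i < k := hk i rfl
  have h1 : H ⊆ Iio k := fun j hj => (hcon j hj).trans_lt hik
  have h2 := (mk_le_mk_of_subset h1).trans_lt (mk_Iio_ord_lt k)
  rw [hH] at h2
  exact lt_irrefl _ h2

theorem eventually_const (hκ : κ.IsRegular) (s : κ.ord.ToType → κ.ord.ToType → Bool)
    (H : Set κ.ord.ToType) (x : Bool)
    (h : ∀ a ∈ H, ∀ b ∈ H, a < b → ∀ α, (∀ γ < α, s a γ = s b γ) →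
      ¬ (s a α = x ∧ s b α = !x)) (α : κ.ord.ToType) :
    ∃ i0, ∀ i ∈ H, ∀ j ∈ H, i0 ≤ i → i0 ≤ j → s i α = s j α := by
  induction α using WellFoundedLT.induction with
  | _ α ih =>
    choose g hg using ih
    obtain ⟨i1, hi1⟩ := exists_ub hκ (range fun γ : Iio α => g γ.1 γ.2)
      (mk_range_le.trans_lt (mk_Iio_ord_lt α))
    have hagree : ∀ i ∈ H, ∀ j ∈ H, i1 ≤ i → i1 ≤ j → ∀ γ < α, s i γ = s j γ := by
      intro i hi j hj hii hjj γ hγ
      have := (hi1 _ ⟨⟨γ, hγ⟩, rfl⟩).le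
      exact hg γ hγ i hi j hj (this.trans hii) (this.trans hjj)
    by_cases hex : ∃ i ∈ H, i1 ≤ i ∧ s i α = x
    · obtain ⟨i, hi, hi1', hix⟩ := hex
      have hall : ∀ j ∈ H, i ≤ j → s j α = x := by
        intro j hj hij
        rcases hij.eq_or_lt with rfl | hlt
        · exact hix
        · have := h i hi j hj hlt α (hagree i hi j hj hi1' (hi1'.trans hij))
          by_contra hne
          refine this ⟨hix, ?_⟩
          revert hne
          cases s j α <;> cases x <;> simp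
      exact ⟨i, fun a ha b hb hia hib => (hall a ha hia).trans (hall b hb hib).symm⟩
    · push Not at hex
      refine ⟨i1, fun a ha b hb hia hib => ?_⟩
      have h1 := hex a ha hia
      have h2 := hex b hb hib
      revert h1 h2
      cases s a α <;> cases s b α <;> cases x <;> simp

theorem eventually_const_below (hκ : κ.IsRegular) (s : κ.ord.ToType → κ.ord.ToType → Bool)
    (H : Set κ.ord.ToType) (x : Bool)
    (h : ∀ a ∈ H, ∀ b ∈ H, a < b → ∀ α, (∀ γ < α, s a γ = s b γ) →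
      ¬ (s a α = x ∧ s b α = !x)) (α : κ.ord.ToType) :
    ∃ i0, ∀ i ∈ H, ∀ j ∈ H, i0 ≤ i → i0 ≤ j → ∀ γ < α, s i γ = s j γ := by
  choose g hg using fun γ => eventually_const hκ s H x h γ
  obtain ⟨i1, hi1⟩ := exists_ub hκ (range fun γ : Iio α => g γ.1)
    (mk_range_le.trans_lt (mk_Iio_ord_lt α))
  refine ⟨i1, fun i hi j hj hii hjj γ hγ => ?_⟩
  have := (hi1 _ ⟨⟨γ, hγ⟩, rfl⟩).le
  exact hg γ i hi j hj (this.trans hii) (this.trans hjj)

/-- Lexicographic colouring. -/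
theorem exists_mono (hA : Arrows κ) (s : κ.ord.ToType → κ.ord.ToType → Bool) :
    ∃ H : Set κ.ord.ToType, #H = κ ∧ ∃ x : Bool, ∀ a ∈ H, ∀ b ∈ H, a < b →
      ∀ α, (∀ γ < α, s a γ = s b γ) → ¬ (s a α = x ∧ s b α = !x) := by
  classical
  obtain ⟨H, hH, c, hc⟩ := hA (fun a b =>
    decide (∃ β, (∀ γ < β, s a γ = s b γ) ∧ s a β = false ∧ s b β = true))
  refine ⟨H, hH, c, fun a ha b hb hab α hα => ?_⟩
  have h1 := hc a ha b hb hab
  cases c
  · rw [decide_eq_false_iff_not] at h1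
    rintro ⟨h2, h3⟩
    exact h1 ⟨α, hα, h2, h3⟩
  · rw [decide_eq_true_iff] at h1
    obtain ⟨β, hβ, h4, h5⟩ := h1
    rintro ⟨h2, h3⟩
    rcases lt_trichotomy α β with h | h | h
    · rw [hβ α h, h3] at h2
      simp at h2
    · subst h
      rw [h2] at h4
      simp at h4
    · rw [hα β h, h5] at h4
      simp at h4

theorem two_power_lt (hκ : κ.IsRegular) (hA : Arrows κ) (α : κ.ord.ToType) :
    #(Iio α → Bool) < κ := by
  classical
  by_contra hcon
  push Not at hcon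
  have h1 : #κ.ord.ToType ≤ #(Iio α → Bool) := by rwa [mk_toType, card_ord]
  obtain ⟨g⟩ := h1
  obtain ⟨H, hH, x, hx⟩ := exists_mono hA
    (fun i γ => if h : γ < α then g i ⟨γ, h⟩ else false)
  obtain ⟨i0, hi0⟩ := eventually_const_below hκ _ H x hx α
  obtain ⟨i, hi, hii⟩ := unbounded_of_mk hκ hH i0
  obtain ⟨j, hj, hij⟩ := unbounded_of_mk hκ hH i
  have h2 : g i = g j := by
    funext γ
    have h3 := hi0 i hi j hj hii.le (hii.trans hij).le γ.1 γ.2
    have h4 : (γ : κ.ord.ToType) < α := γ.2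
    simpa [h4] using h3
  exact absurd (g.injective h2) hij.ne

/-- The tree property for binary trees, from the Ramsey relation. -/
theorem exists_branch (hκ : κ.IsRegular) (hA : Arrows κ)
    (T : (κ.ord.ToType → Bool) → κ.ord.ToType → Prop)
    (hdep : ∀ s t α, (∀ γ < α, s γ = t γ) → T s α → T t α)
    (hdown : ∀ s α β, β ≤ α → T s α → T s β) (hne : ∀ α, ∃ s, T s α) :
    ∃ b, ∀ α, T b α := by
  classical
  choose s hs using hne
  obtain ⟨H, hH, x, hx⟩ := exists_mono hA s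
  choose g hg using eventually_const hκ s H x hx
  choose m hm1 hm2 using unbounded_of_mk hκ hH
  refine ⟨fun α => s (m (g α)) α, fun α => ?_⟩
  obtain ⟨i0, hi0⟩ := eventually_const_below hκ s H x hx α
  obtain ⟨i1, hi1⟩ := exists_ub hκ (range fun γ : Iio α => m (g γ.1))
    (mk_range_le.trans_lt (mk_Iio_ord_lt α))
  set i := m (max (max i0 i1) α) with hi
  have hiH : i ∈ H := hm1 _
  have hi2 := hm2 (max (max i0 i1) α)
  rw [← hi] at hi2
  have hαi : α ≤ i := (le_max_right _ _).trans hi2.le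
  have hi1i : i1 ≤ i := ((le_max_right _ _).trans (le_max_left _ _)).trans hi2.le
  refine hdep (s i) _ α ?_ (hdown _ _ _ hαi (hs i))
  intro γ hγ
  have h1 : m (g γ) < i1 := hi1 _ ⟨⟨γ, hγ⟩, rfl⟩
  exact hg γ i hiH _ (hm1 _) ((hm2 (g γ)).le.trans (h1.le.trans hi1i)) (hm2 (g γ)).le

end Pool.Agent.MPcfac02
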