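import Mathlib
import Pool.Agent.Lib.MP_cfac02_lc.Ramsey

namespace Pool.Agent.MPcfac02

open Cardinal Set Order

universe u

variable {P : Type u} [PartialOrder P] {μ : Cardinal.{u}}

/-- The elements whose cone in `X` is small. -/
def VV (μ : Cardinal.{u}) (X : Set P) : Set P := {x | x ∈ X ∧ Sm μ (X ∩ Ici x)}

/-- One step of the tree. -/
def step (μ : Cardinal.{u}) (y : Set P → Bool → P) (X : Set P) (e : Bool) : Set P :=
  {p | p ∈ X ∧ p ∉ VV μ X ∧ ¬ y X e ≤ p}

section Node

variable {I : Type u} [LinearOrder I] [WellFoundedLT I]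

/-- Nodes of the tree. -/
noncomputable def node (μ : Cardinal.{u}) (y : Set P → Bool → P) (s : I → Bool) : I → Set P :=
  (wellFounded_lt (α := I)).fix (fun α ih =>
    {p | ∀ β, ∀ hβ : β < α, p ∈ step μ y (ih β hβ) (s β)})

theorem node_eq (y : Set P → Bool → P) (s : I → Bool) (α : I) :
    node μ y s α = {p | ∀ β < α, p ∈ step μ y (node μ y s β) (s β)} := by
  unfold node
  rw [WellFounded.fix_eq]

theorem mem_node {y : Set P → Bool → P} {s : I → Bool} {α : I} {p : P} :
    p ∈ node μ y s α ↔ ∀ β < α, p ∈ step μ y (node μ y s β) (s β) := by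
  rw [node_eq]
  rfl

theorem node_congr (y : Set P → Bool → P) (s t : I → Bool) (α : I) (h : ∀ γ < α, s γ = t γ) :
    node μ y s α = node μ y t α := by
  induction α using WellFoundedLT.induction with
  | _ α ih =>
    ext p
    rw [mem_node, mem_node]
    refine forall₂_congr fun β hβ => ?_
    rw [ih β hβ (fun γ hγ => h γ (hγ.trans hβ)), h β hβ]

theorem node_anti (y : Set P → Bool → P) (s : I → Bool) {α β : I} (h : β ≤ α) :
    node μ y s α ⊆ node μ y s β := by
  intro p hp
  rw [mem_node] at hp ⊢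
  exact fun γ hγ => hp γ (hγ.trans_le h)

/-- The path followed by a point. -/
theorem exists_path (y : Set P → Bool → P) (p : P) : ∃ s : I → Bool, ∀ β,
    (s β = true ↔ p ∈ step μ y (node μ y s β) true) := by
  classical
  let Y : I → Set P := (wellFounded_lt (α := I)).fix (fun α ih =>
    {q | ∀ β, ∀ hβ : β < α, q ∈ step μ y (ih β hβ) (decide (p ∈ step μ y (ih β hβ) true))})
  have hY : ∀ α, Y α = {q | ∀ β < α, q ∈ step μ y (Y β) (decide (p ∈ step μ y (Y β) true))} := by
    intro α
    change (wellFounded_lt (α := I)).fix _ α = _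
    rw [WellFounded.fix_eq]
  refine ⟨fun β => decide (p ∈ step μ y (Y β) true), fun β => ?_⟩
  have hnode : ∀ α, node μ y (fun β => decide (p ∈ step μ y (Y β) true)) α = Y α := by
    intro α
    induction α using WellFoundedLT.induction with
    | _ α ih =>
      rw [hY]
      ext q
      rw [mem_node]
      simp only [Set.mem_ofPred_eq]
      refine forall₂_congr fun β hβ => ?_
      rw [ih β hβ]
  rw [hnode, decide_eq_true_iff]

end Node

/-- Covering theorem for cofinalities with the Ramsey relation, core form. -/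
theorem sm_univ (hμ : μ.IsStrongLimit) (hs : μ.ord.cof < μ) (hA : Arrows μ.ord.cof)
    (hP : ∀ A : Set P, IsAntichain (· ≤ ·) A → #A < μ) : Sm μ (univ : Set P) := by
  classical
  by_contra hbig
  have hκ : μ.ord.cof.IsRegular := regular_cof hμ
  have hV : ∀ X : Set P, Sm μ (VV μ X) := sm_small_cones hμ hs hP
  -- choice of the two incompatible points
  have hy : ∀ X : Set P, ∃ y : Bool → P, ¬ Sm μ X →
      (∀ e, y e ∈ X ∧ y e ∉ VV μ X) ∧ ∀ z ∈ X, z ∉ VV μ X → ¬ (y false ≤ z ∧ y true ≤ z) := by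
    intro X
    have hne : Nonempty P := by
      by_contra hne
      rw [not_nonempty_iff] at hne
      refine hbig ((sm_of_directed (X := (∅ : Set P)) hμ (fun x hx => hx.elim)).mono ?_)
      intro x
      exact (hne.false x).elim
    by_cases hX : Sm μ X
    · exact ⟨fun _ => Classical.arbitrary P, fun h => absurd hX h⟩
    · have h1 : ¬ DirectedOn (· ≤ ·) (X \ VV μ X) := fun h =>
        hX ((sm_of_directed hμ h).of_diff hμ (hV X))
      unfold DirectedOn at h1
      push Not at h1
      obtain ⟨a, ha, b, hb, hab⟩ := h1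
      refine ⟨fun e => if e then b else a, fun _ => ⟨?_, ?_⟩⟩
      · intro e
        cases e
        · exact ha
        · exact hb
      · rintro z hz hzV ⟨h2, h3⟩
        simp only [Bool.false_eq_true, if_false, if_true] at h2 h3
        exact hab z ⟨hz, hzV⟩ h2 h3
  choose y hy using hy
  set N := node (I := μ.ord.cof.ord.ToType) μ y with hN
  -- every level has a large node
  have hlevel : ∀ α, ∃ s, ¬ Sm μ (N s α) := by
    intro α
    by_contra hcon
    push Not at hcon
    have h1 : Sm μ (⋃ σ : Iio α → Bool, N (fun γ => if h : γ < α then σ ⟨γ, h⟩ else false) α) :=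
      Sm.iUnion hμ (two_power_lt hκ hA α) fun σ => hcon _
    have h2 : Sm μ (⋃ γ : Iio α, ⋃ σ : Iio γ.1 → Bool,
        VV μ (N (fun δ => if h : δ < γ.1 then σ ⟨δ, h⟩ else false) γ.1)) :=
      Sm.iUnion hμ (mk_Iio_ord_lt α) fun γ =>
        Sm.iUnion hμ (two_power_lt hκ hA γ.1) fun σ => hV _
    refine hbig ((h1.union hμ h2).mono fun p _ => ?_)
    obtain ⟨s, hsp⟩ := exists_path (μ := μ) (I := μ.ord.cof.ord.ToType) y p
    have hext : ∀ γ : μ.ord.cof.ord.ToType,
        N (fun δ => if h : δ < γ then (fun ε : Iio γ => s ε.1) ⟨δ, h⟩ else false) γ = N s γ := by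
      intro γ
      refine node_congr y _ _ γ fun δ hδ => ?_
      simp [hδ]
    by_cases hpα : p ∈ N s α
    · refine Or.inl (mem_iUnion.2 ⟨fun ε => s ε.1, ?_⟩)
      rw [hext α]
      exact hpα
    · refine Or.inr ?_
      obtain ⟨β, ⟨hβα, hβ⟩, hmin⟩ := (wellFounded_lt (α := μ.ord.cof.ord.ToType)).has_min
        {β | β ≤ α ∧ p ∉ N s β} ⟨α, le_rfl, hpα⟩
      rw [hN, mem_node] at hβ
      push Not at hβ
      obtain ⟨γ, hγβ, hγ⟩ := hβ
      have hpγ : p ∈ N s γ := by
        by_contra hc
        exact hmin γ ⟨hγβ.le.trans hβα, hc⟩ hγβ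
      have hpV : p ∈ VV μ (N s γ) := by
        by_contra hc
        have hbigN : ¬ Sm μ (N s γ) := fun h => hc ⟨hpγ, h.mono inter_subset_left⟩
        obtain ⟨hy1, hy2⟩ := hy _ hbigN
        have h3 : ∀ e, p ∉ step μ y (N s γ) e → y (N s γ) e ≤ p := by
          intro e he
          by_contra hle
          exact he ⟨hpγ, hc, hle⟩
        have hsγ := hsp γ
        have h4 : p ∉ step μ y (N s γ) true := by
          intro h5
          have h6 := hsγ.2 h5
          rw [h6] at hγ
          exact hγ h5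
        have h5 : s γ = false := by
          cases hh : s γ
          · rfl
          · exact absurd (hsγ.1 hh) h4
        rw [h5] at hγ
        exact hy2 p hpγ hc ⟨h3 _ hγ, h3 _ h4⟩
      refine mem_iUnion.2 ⟨⟨γ, hγβ.trans_le hβα⟩, mem_iUnion.2 ⟨fun ε => s ε.1, ?_⟩⟩
      rw [hext γ]
      exact hpV
  -- a branch
  obtain ⟨b, hb⟩ := exists_branch hκ hA (fun s α => ¬ Sm μ (N s α))
    (fun s t α h hs' => by rwa [hN, ← node_congr y s t α h])
    (fun s α β hβα hs' h => hs' (h.mono (node_anti y s hβα))) hlevel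
  refine no_case_one hμ hs hP
    (fun α => {x | x ∈ N b α ∧ x ∉ VV μ (N b α) ∧ y (N b α) (b α) ≤ x}) ?_ ?_
  · intro α hsm
    obtain ⟨hy1, hy2⟩ := hy _ (hb α)
    have h1 := hy1 (b α)
    refine h1.2 ⟨h1.1, (hsm.union hμ (hV (N b α))).mono ?_⟩
    rintro x ⟨hx1, hx2⟩
    by_cases hxV : x ∈ VV μ (N b α)
    · exact Or.inr hxV
    · exact Or.inl ⟨hx1, hxV, hx2⟩
  · rintro α β hαβ x ⟨_, _, hx⟩ z ⟨hz, _, _⟩ hxz
    rw [hN, mem_node] at hz
    exact (hz α hαβ).2.2 (hx.trans hxz)

end Pool.Agent.MPcfac02
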